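import Mathlib

/-!
The representation ring a(RG) of finitely generated R-free representations of G,
with direct-sum relations only.
-/

universe u v

open TensorProduct

namespace Pool.Agent.Lib.MP_6995cd_al

/-- An `R`-representation of `G`: a finitely generated free `R`-module with a linear `G`-action. -/
structure FRep (R : Type u) (G : Type v) [CommRing R] [Monoid G] where
  V : Type u
  [acg : AddCommGroup V]
  [mod : Module R V]
  [free : Module.Free R V]
  [fin : Module.Finite R V]
  ρ : Representation R G V

attribute [instance] FRep.acg FRep.mod FRep.free FRep.fin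

variable {R : Type u} {G : Type v} [CommRing R] [Monoid G]

/-- Isomorphism of representations: a `G`-equivariant `R`-linear equivalence exists. -/
def FRep.Iso (M N : FRep R G) : Prop :=
  ∃ e : M.V ≃ₗ[R] N.V, ∀ (g : G) (x : M.V), e (M.ρ g x) = N.ρ g (e x)

/-- Direct sum. -/
noncomputable abbrev FRep.sum (M N : FRep R G) : FRep R G where
  V := M.V × N.V
  ρ := M.ρ.prod N.ρ

/-- Tensor product over `R` with the diagonal action. -/
noncomputable abbrev FRep.tensor (M N : FRep R G) : FRep R G where
  V := M.V ⊗[R] N.V
  ρ := M.ρ.tprod N.ρ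

/-- The trivial representation on `R`. -/
abbrev FRep.triv (R : Type u) (G : Type v) [CommRing R] [Monoid G] : FRep R G where
  V := R
  ρ := Representation.trivial R G R

theorem FRep.Iso.refl (M : FRep R G) : M.Iso M := ⟨LinearEquiv.refl R _, fun _ _ => rfl⟩

theorem FRep.Iso.symm {M N : FRep R G} (h : M.Iso N) : N.Iso M := by
  obtain ⟨e, he⟩ := h
  refine ⟨e.symm, fun g x => e.injective ?_⟩
  rw [he, e.apply_symm_apply, e.apply_symm_apply]

theorem FRep.Iso.trans {M N P : FRep R G} (h : M.Iso N) (h' : N.Iso P) : M.Iso P := by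
  obtain ⟨e, he⟩ := h
  obtain ⟨e', he'⟩ := h'
  exact ⟨e.trans e', fun g x => by rw [LinearEquiv.trans_apply, LinearEquiv.trans_apply, he, he']⟩

/-- Isomorphism as a setoid. -/
def FRep.isoSetoid (R : Type u) (G : Type v) [CommRing R] [Monoid G] : Setoid (FRep R G) where
  r := FRep.Iso
  iseqv := ⟨FRep.Iso.refl, FRep.Iso.symm, FRep.Iso.trans⟩

theorem FRep.Iso.tensorCongr {M M' N N' : FRep R G} (h : M.Iso M') (h' : N.Iso N') :
    (M.tensor N).Iso (M'.tensor N') := by
  obtain ⟨e, he⟩ := h
  obtain ⟨e', he'⟩ := h'
  refine ⟨TensorProduct.congr e e', fun g x => ?_⟩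
  change TensorProduct.congr e e' (TensorProduct.map (M.ρ g) (N.ρ g) x) =
    TensorProduct.map (M'.ρ g) (N'.ρ g) (TensorProduct.congr e e' x)
  induction x using TensorProduct.induction_on with
  | zero => simp
  | tmul a b => simp [he, he']
  | add a b ha hb => simp only [map_add, ha, hb]

theorem FRep.tensor_assoc (M N P : FRep R G) :
    ((M.tensor N).tensor P).Iso (M.tensor (N.tensor P)) :=
  ⟨(Representation.TensorProduct.assoc M.ρ N.ρ P.ρ).toLinearEquiv, fun g x =>
    (Representation.TensorProduct.assoc M.ρ N.ρ P.ρ).toIntertwiningMap.isIntertwining _ _ g x⟩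

theorem FRep.tensor_comm (M N : FRep R G) : (M.tensor N).Iso (N.tensor M) :=
  ⟨(Representation.TensorProduct.comm M.ρ N.ρ).toLinearEquiv, fun g x =>
    (Representation.TensorProduct.comm M.ρ N.ρ).toIntertwiningMap.isIntertwining _ _ g x⟩

theorem FRep.one_tensor (M : FRep R G) : ((FRep.triv R G).tensor M).Iso M :=
  ⟨(Representation.TensorProduct.lid R M.ρ).toLinearEquiv, fun g x =>
    (Representation.TensorProduct.lid R M.ρ).toIntertwiningMap.isIntertwining _ _ g x⟩

theorem FRep.tensor_sum (M N P : FRep R G) :
    (M.tensor (N.sum P)).Iso ((M.tensor N).sum (M.tensor P)) := by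
  refine ⟨TensorProduct.prodRight R R M.V N.V P.V, fun g x => ?_⟩
  change TensorProduct.prodRight R R M.V N.V P.V
      (TensorProduct.map (M.ρ g) ((N.ρ g).prodMap (P.ρ g)) x) =
    (TensorProduct.map (M.ρ g) (N.ρ g)).prodMap (TensorProduct.map (M.ρ g) (P.ρ g))
      (TensorProduct.prodRight R R M.V N.V P.V x)
  induction x using TensorProduct.induction_on with
  | zero => simp only [map_zero]
  | tmul a b => obtain ⟨b, c⟩ := b; simp
  | add a b ha hb => simp only [map_add, ha, hb]

/-- Isomorphism classes of representations. -/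
def IsoClass (R : Type u) (G : Type v) [CommRing R] [Monoid G] : Type (max (u + 1) v) :=
  Quotient (FRep.isoSetoid R G)

/-- The isomorphism class of a representation. -/
def IsoClass.cls (M : FRep R G) : IsoClass R G := Quotient.mk (FRep.isoSetoid R G) M

/-- Isomorphism classes form a commutative monoid under the tensor product. -/
noncomputable instance IsoClass.commMonoid : CommMonoid (IsoClass R G) where
  mul := Quotient.map₂ (sa := FRep.isoSetoid R G) (sb := FRep.isoSetoid R G)
    (sc := FRep.isoSetoid R G) FRep.tensor (fun _ _ h _ _ h' => FRep.Iso.tensorCongr h h')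
  one := IsoClass.cls (FRep.triv R G)
  mul_assoc := by
    rintro ⟨M⟩ ⟨N⟩ ⟨P⟩
    exact Quotient.sound (FRep.tensor_assoc M N P)
  mul_comm := by
    rintro ⟨M⟩ ⟨N⟩
    exact Quotient.sound (FRep.tensor_comm M N)
  one_mul := by
    rintro ⟨M⟩
    exact Quotient.sound (FRep.one_tensor M)
  mul_one := by
    rintro ⟨M⟩
    exact Quotient.sound ((FRep.tensor_comm M _).trans (FRep.one_tensor M))

/-- The direct-sum relations `[M ⊕ N] - [M] - [N]` in the free abelian group on iso classes. -/
def sumRelations (R : Type u) (G : Type v) [CommRing R] [Monoid G] :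
    Set (FreeAbelianGroup (IsoClass R G)) :=
  {x | ∃ M N : FRep R G, x = FreeAbelianGroup.of (IsoClass.cls (M.sum N))
    - FreeAbelianGroup.of (IsoClass.cls M) - FreeAbelianGroup.of (IsoClass.cls N)}

theorem mul_mem_closure_sumRelations (c x : FreeAbelianGroup (IsoClass R G))
    (hx : x ∈ AddSubgroup.closure (sumRelations R G)) :
    c * x ∈ AddSubgroup.closure (sumRelations R G) := by
  induction c using FreeAbelianGroup.induction_on with
  | zero => simp
  | of c =>
    obtain ⟨P, rfl⟩ : ∃ P : FRep R G, c = IsoClass.cls P := by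
      obtain ⟨P⟩ := c
      exact ⟨P, rfl⟩
    induction hx using AddSubgroup.closure_induction with
    | mem x hx =>
      obtain ⟨M, N, rfl⟩ := hx
      refine AddSubgroup.subset_closure ⟨P.tensor M, P.tensor N, ?_⟩
      rw [mul_sub, mul_sub, FreeAbelianGroup.of_mul_of, FreeAbelianGroup.of_mul_of,
        FreeAbelianGroup.of_mul_of]
      congr 3
      exact Quotient.sound (FRep.tensor_sum P M N)
    | zero => simp
    | add x y _ _ hx hy => rw [mul_add]; exact add_mem hx hy
    | neg x _ hx => rw [mul_neg]; exact neg_mem hx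
  | neg c hc => rw [neg_mul]; exact neg_mem hc
  | add c d hc hd => rw [add_mul]; exact add_mem hc hd

/-- The additive subgroup generated by the direct-sum relations; it is an ideal. -/
noncomputable def sumIdeal (R : Type u) (G : Type v) [CommRing R] [Monoid G] :
    Ideal (FreeAbelianGroup (IsoClass R G)) where
  carrier := AddSubgroup.closure (sumRelations R G)
  add_mem' := fun ha hb => add_mem ha hb
  zero_mem' := zero_mem _
  smul_mem' := fun c x hx => mul_mem_closure_sumRelations c x hx

/-- The representation ring `a(RG)`. -/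
abbrev RepRing (R : Type u) (G : Type v) [CommRing R] [Monoid G] : Type (max (u + 1) v) :=
  FreeAbelianGroup (IsoClass R G) ⧸ sumIdeal R G

end Pool.Agent.Lib.MP_6995cd_al
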