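import Pool.Agent.Lib.MP_6995cd_al.Defs
import Mathlib

-- part Pool.Agent.Lib.MP_6995cd_al.Basic
section

/-! Basic API for the representation ring. -/

universe u v w

open TensorProduct

namespace Pool.Agent.Lib.MP_6995cd_al

variable {R : Type u} {G : Type v} [CommRing R] [Monoid G]

/-- The class of a representation in the representation ring. -/
noncomputable def cl (M : FRep R G) : RepRing R G :=
  Ideal.Quotient.mk (sumIdeal R G) (FreeAbelianGroup.of (IsoClass.cls M))

theorem cl_congr {M N : FRep R G} (h : M.Iso N) : cl M = cl N := by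
  unfold cl
  congr 2
  exact Quotient.sound h

theorem cl_sum (M N : FRep R G) : cl (M.sum N) = cl M + cl N := by
  unfold cl
  rw [← map_add, Ideal.Quotient.eq, ← sub_sub]
  exact AddSubgroup.subset_closure ⟨M, N, rfl⟩

theorem cl_tensor (M N : FRep R G) : cl (M.tensor N) = cl M * cl N := by
  unfold cl
  rw [← map_mul, FreeAbelianGroup.of_mul_of]
  rfl

theorem cl_one : cl (FRep.triv R G) = 1 := by
  unfold cl
  rw [← map_one (Ideal.Quotient.mk (sumIdeal R G)), ← FreeAbelianGroup.of_one]
  rfl

theorem cl_of_subsingleton (M : FRep R G) [h : Subsingleton M.V] : cl M = 0 := by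
  have : (M.sum M).Iso M :=
    ⟨LinearEquiv.ofSubsingleton _ _, fun _ _ => Subsingleton.elim _ _⟩
  have h2 := cl_congr this
  rw [cl_sum] at h2
  simpa using h2

/-- The zero representation. -/
abbrev FRep.zero (R : Type u) (G : Type v) [CommRing R] [Monoid G] : FRep R G where
  V := PUnit.{u + 1}
  ρ := Representation.trivial R G PUnit.{u + 1}

theorem cl_zero : cl (FRep.zero R G) = 0 := cl_of_subsingleton _

theorem exists_sub (x : RepRing R G) : ∃ M N : FRep R G, x = cl M - cl N := by
  obtain ⟨y, rfl⟩ := Ideal.Quotient.mk_surjective x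
  induction y using FreeAbelianGroup.induction_on with
  | zero => exact ⟨FRep.zero R G, FRep.zero R G, by simp⟩
  | of c =>
    obtain ⟨P⟩ := c
    exact ⟨P, FRep.zero R G, by rw [cl_zero, sub_zero]; rfl⟩
  | neg c hc =>
    obtain ⟨M, N, h⟩ := hc
    exact ⟨N, M, by rw [map_neg, h, neg_sub]⟩
  | add c d hc hd =>
    obtain ⟨M, N, h⟩ := hc
    obtain ⟨M', N', h'⟩ := hd
    exact ⟨M.sum M', N.sum N', by rw [map_add, h, h', cl_sum, cl_sum]; ring⟩

section lift

variable {B : Type w} [AddCommGroup B]

/-- Additive invariants of representations descend to the representation ring. -/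
noncomputable def liftAdd (f : FRep R G → B) (hiso : ∀ M N : FRep R G, M.Iso N → f M = f N)
    (hsum : ∀ M N : FRep R G, f (M.sum N) = f M + f N) : RepRing R G →+ B :=
  QuotientAddGroup.lift (sumIdeal R G).toAddSubgroup
    (FreeAbelianGroup.lift (fun c : IsoClass R G =>
      Quotient.lift (s := FRep.isoSetoid R G) f hiso c)) (by
      intro x hx
      have hx' : x ∈ AddSubgroup.closure (sumRelations R G) := hx
      refine (AddSubgroup.closure_le (AddMonoidHom.ker _)).2 ?_ hx'
      rintro _ ⟨M, N, rfl⟩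
      simp only [SetLike.mem_coe, AddMonoidHom.mem_ker, map_sub, FreeAbelianGroup.lift_apply_of]
      change f (M.sum N) - f M - f N = 0
      rw [hsum]; abel)

theorem liftAdd_cl (f : FRep R G → B) (hiso : ∀ M N : FRep R G, M.Iso N → f M = f N)
    (hsum : ∀ M N : FRep R G, f (M.sum N) = f M + f N) (M : FRep R G) :
    liftAdd f hiso hsum (cl M) = f M := by
  unfold liftAdd cl
  change QuotientAddGroup.lift _ _ _ (QuotientAddGroup.mk _) = _
  rw [QuotientAddGroup.lift_mk, FreeAbelianGroup.lift_apply_of]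
  rfl

theorem addHom_ext {f g : RepRing R G →+ B} (h : ∀ M, f (cl M) = g (cl M)) : f = g := by
  ext x
  obtain ⟨M, N, rfl⟩ := exists_sub x
  rw [map_sub, map_sub, h, h]

end lift

theorem map_mul_of_cl {B : Type w} [CommRing B] (f : RepRing R G →+ B)
    (h : ∀ M N : FRep R G, f (cl (M.tensor N)) = f (cl M) * f (cl N)) (x y : RepRing R G) :
    f (x * y) = f x * f y := by
  obtain ⟨M, N, rfl⟩ := exists_sub x
  obtain ⟨M', N', rfl⟩ := exists_sub y
  rw [sub_mul, mul_sub, mul_sub, ← cl_tensor, ← cl_tensor, ← cl_tensor, ← cl_tensor]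
  simp only [map_sub, h]
  ring

/-- Additive, multiplicative, unital invariants give ring homomorphisms. -/
noncomputable def liftRing {B : Type w} [CommRing B] (f : FRep R G → B)
    (hiso : ∀ M N : FRep R G, M.Iso N → f M = f N)
    (hsum : ∀ M N : FRep R G, f (M.sum N) = f M + f N)
    (hten : ∀ M N : FRep R G, f (M.tensor N) = f M * f N)
    (hone : f (FRep.triv R G) = 1) : RepRing R G →+* B where
  toFun := liftAdd f hiso hsum
  map_zero' := map_zero _
  map_add' := map_add _
  map_one' := by rw [← cl_one, liftAdd_cl, hone]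
  map_mul' := map_mul_of_cl _ (fun M N => by rw [liftAdd_cl, liftAdd_cl, liftAdd_cl, hten])

theorem liftRing_cl {B : Type w} [CommRing B] (f : FRep R G → B)
    (hiso : ∀ M N : FRep R G, M.Iso N → f M = f N)
    (hsum : ∀ M N : FRep R G, f (M.sum N) = f M + f N)
    (hten : ∀ M N : FRep R G, f (M.tensor N) = f M * f N)
    (hone : f (FRep.triv R G) = 1) (M : FRep R G) :
    liftRing f hiso hsum hten hone (cl M) = f M := liftAdd_cl f hiso hsum M

theorem FRep.Iso.sum {M M' N N' : FRep R G} (h : M.Iso M') (h' : N.Iso N') :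
    (M.sum N).Iso (M'.sum N') := by
  obtain ⟨e, he⟩ := h
  obtain ⟨e', he'⟩ := h'
  refine ⟨e.prodCongr e', fun g x => ?_⟩
  obtain ⟨a, b⟩ := x
  exact Prod.ext (he g a) (he' g b)

theorem FRep.sum_assoc (M N P : FRep R G) : ((M.sum N).sum P).Iso (M.sum (N.sum P)) :=
  ⟨LinearEquiv.prodAssoc R _ _ _, fun _ _ => rfl⟩

theorem FRep.sum_comm (M N : FRep R G) : (M.sum N).Iso (N.sum M) :=
  ⟨LinearEquiv.prodComm R _ _, fun _ _ => rfl⟩

theorem FRep.zero_sum (M : FRep R G) : ((FRep.zero R G).sum M).Iso M :=
  ⟨LinearEquiv.uniqueProd, fun _ _ => rfl⟩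

/-- Isomorphism classes as an additive monoid under direct sum. -/
def SumClass (R : Type u) (G : Type v) [CommRing R] [Monoid G] : Type (max (u + 1) v) :=
  Quotient (FRep.isoSetoid R G)

/-- The class in the additive monoid. -/
def SumClass.mk (M : FRep R G) : SumClass R G := Quotient.mk (FRep.isoSetoid R G) M

noncomputable instance : Add (SumClass R G) where
  add := Quotient.map₂ (sa := FRep.isoSetoid R G) (sb := FRep.isoSetoid R G)
    (sc := FRep.isoSetoid R G) FRep.sum (fun _ _ h _ _ h' => FRep.Iso.sum h h')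

instance : Zero (SumClass R G) where
  zero := SumClass.mk (FRep.zero R G)

noncomputable instance : AddCommMonoid (SumClass R G) where
  add_assoc := by
    rintro ⟨M⟩ ⟨N⟩ ⟨P⟩
    exact Quotient.sound (FRep.sum_assoc M N P)
  add_comm := by
    rintro ⟨M⟩ ⟨N⟩
    exact Quotient.sound (FRep.sum_comm M N)
  zero_add := by
    rintro ⟨M⟩
    exact Quotient.sound (FRep.zero_sum M)
  add_zero := by
    rintro ⟨M⟩
    exact Quotient.sound ((FRep.sum_comm M _).trans (FRep.zero_sum M))
  nsmul := nsmulRec

theorem exists_iso_of_cl_eq {M N : FRep R G} (h : cl M = cl N) :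
    ∃ X : FRep R G, (M.sum X).Iso (N.sum X) := by
  let f : FRep R G → Algebra.GrothendieckAddGroup (SumClass R G) :=
    fun M => Algebra.GrothendieckAddGroup.of (SumClass.mk M)
  have hiso : ∀ M N : FRep R G, M.Iso N → f M = f N := fun M N h => by
    have : SumClass.mk M = SumClass.mk N := Quotient.sound h
    simp only [f, this]
  have hsum : ∀ M N : FRep R G, f (M.sum N) = f M + f N := fun M N => by
    simp only [f]
    rw [← map_add]
    rfl
  have h2 : f M = f N := by
    rw [← liftAdd_cl f hiso hsum, h, liftAdd_cl]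
  obtain ⟨⟨c, hc0⟩, hc⟩ := (AddLocalization.addMonoidOf (⊤ : AddSubmonoid (SumClass R G))).eq_iff_exists.1 h2
  obtain ⟨X⟩ := c
  have hc' : (X.sum M).Iso (X.sum N) := Quotient.exact (s := FRep.isoSetoid R G) hc
  exact ⟨X, (FRep.sum_comm _ _).trans (hc'.trans (FRep.sum_comm _ _))⟩

/-- Finite direct sums. -/
noncomputable abbrev FRep.pi {ι : Type} [Finite ι] (M : ι → FRep R G) : FRep R G where
  V := ∀ i, (M i).V
  ρ :=
    { toFun := fun g => LinearMap.pi fun i => (M i).ρ g ∘ₗ LinearMap.proj i
      map_one' := by ext; simp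
      map_mul' := fun g h => by ext; simp }

theorem cl_pi {ι : Type} [Fintype ι] (M : ι → FRep R G) : cl (FRep.pi M) = ∑ i, cl (M i) := by
  revert M
  refine Fintype.induction_empty_option
    (P := fun ι _ => ∀ M : ι → FRep R G, cl (FRep.pi M) = ∑ i, cl (M i)) ?_ ?_ ?_ ι
  · intro α β _ e ih M
    letI : Fintype α := Fintype.ofEquiv β e.symm
    rw [← e.sum_comp, ← ih (fun a => M (e a))]
    refine cl_congr ⟨(LinearEquiv.piCongrLeft R (fun b => (M b).V) e).symm, fun g x => ?_⟩
    rfl
  · intro M
    rw [Fintype.sum_empty]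
    exact cl_of_subsingleton _
  · intro α _ ih M
    rw [Fintype.sum_option, ← ih, ← cl_sum]
    refine cl_congr ⟨LinearEquiv.piOptionEquivProd R, fun g x => ?_⟩
    rfl

/-- The rank one representation given by a character. -/
noncomputable abbrev FRep.char (χ : G →* R) : FRep R G where
  V := R
  ρ :=
    { toFun := fun g => χ g • LinearMap.id
      map_one' := by ext; simp
      map_mul' := fun g h => by ext; simp [mul_comm] }

/-- Twisting lemma. -/
theorem cl_twist {M N : FRep R G} (χ : G →* R) (e : M.V ≃ₗ[R] N.V)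
    (he : ∀ g x, e (M.ρ g x) = χ g • N.ρ g (e x)) : cl M = cl (FRep.char χ) * cl N := by
  rw [← cl_tensor]
  refine cl_congr ⟨e.trans (TensorProduct.lid R N.V).symm, fun g x => ?_⟩
  change (1 : R) ⊗ₜ[R] (e (M.ρ g x)) =
    TensorProduct.map (χ g • (LinearMap.id : R →ₗ[R] R)) (N.ρ g) ((1 : R) ⊗ₜ[R] (e x))
  rw [he, TensorProduct.map_tmul, TensorProduct.tmul_smul, TensorProduct.smul_tmul']
  rfl

theorem cl_char_mul (χ χ' : G →* R) :
    cl (FRep.char (χ * χ')) = cl (FRep.char χ) * cl (FRep.char χ') :=
  cl_twist χ (LinearEquiv.refl R R) (fun g x => by simp [mul_assoc])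

theorem cl_char_one : cl (FRep.char (1 : G →* R)) = 1 := by
  rw [← cl_one]
  exact cl_congr ⟨LinearEquiv.refl R R, fun g x => by simp⟩

/-- A rank one representation of a group is invertible in the representation ring. -/
theorem isUnit_cl_of_finrank_eq_one {G : Type v} [Group G] [Nontrivial R] (M : FRep R G)
    (h : Module.finrank R M.V = 1) : IsUnit (cl M) := by
  let e : M.V ≃ₗ[R] R := LinearEquiv.ofFinrankEq _ _ (by rw [h, Module.finrank_self])
  have key : ∀ (g : G) (x : M.V), e (M.ρ g x) = e (M.ρ g (e.symm 1)) * e x := by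
    intro g x
    have : x = e x • e.symm 1 := by
      rw [← map_smul, smul_eq_mul, mul_one, e.symm_apply_apply]
    conv_lhs => rw [this, map_smul, map_smul, smul_eq_mul, mul_comm]
  let χ : G →* R :=
    { toFun := fun g => e (M.ρ g (e.symm 1))
      map_one' := by simp
      map_mul' := fun g h => by
        rw [map_mul, Module.End.mul_apply, key] }
  let χ' : G →* R :=
    { toFun := fun g => χ g⁻¹
      map_one' := by simp
      map_mul' := fun g h => by rw [mul_inv_rev, map_mul, mul_comm] }
  have h1 : cl M = cl (FRep.char χ) :=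
    cl_congr ⟨e, fun g x => by rw [key]; rfl⟩
  have h2 : χ * χ' = 1 := by
    ext g
    change χ g * χ g⁻¹ = 1
    rw [← map_mul, mul_inv_cancel, map_one]
  refine IsUnit.of_mul_eq_one (cl (FRep.char χ')) ?_
  rw [h1, ← cl_char_mul, h2, cl_char_one]

/-- The rank homomorphism. -/
noncomputable def rankHom (R : Type u) (G : Type v) [CommRing R] [Monoid G] [Nontrivial R] :
    RepRing R G →+* ℤ :=
  liftRing (fun M => (Module.finrank R M.V : ℤ))
    (fun M N ⟨e, _⟩ => by simp only [e.finrank_eq])
    (fun M N => by simp only [Module.finrank_prod]; push_cast; rfl)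
    (fun M N => by simp only [Module.finrank_tensorProduct]; push_cast; rfl)
    (by simp)

theorem rankHom_cl [Nontrivial R] (M : FRep R G) :
    rankHom R G (cl M) = Module.finrank R M.V := liftRing_cl _ _ _ _ _ M

end Pool.Agent.Lib.MP_6995cd_al
end

-- part Pool.Agent.Lib.MP_6995cd_al.Series
section

/-! Power series lemmas: logarithmic derivatives (ghost components). -/

universe u w

open PowerSeries

namespace Pool.Agent.Lib.MP_6995cd_al

variable {A : Type u} [CommRing A]

/-- The Euler operator `X d/dX`. -/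
noncomputable def eul (F : A⟦X⟧) : A⟦X⟧ := PowerSeries.mk fun n => (n : A) * coeff n F

theorem coeff_eul (F : A⟦X⟧) (n : ℕ) : coeff n (eul F) = (n : A) * coeff n F := by
  simp [eul]

theorem eul_mul (F H : A⟦X⟧) : eul (F * H) = eul F * H + F * eul H := by
  ext n
  simp only [coeff_eul, map_add, coeff_mul, Finset.mul_sum, ← Finset.sum_add_distrib]
  refine Finset.sum_congr rfl fun x hx => ?_
  rw [Finset.HasAntidiagonal.mem_antidiagonal] at hx
  rw [← hx]
  push_cast
  ring

/-- `P` is minus the logarithmic Euler derivative of `F`. -/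
def LogD (F P : A⟦X⟧) : Prop := F * P = -eul F

theorem LogD.mul {F P H Q : A⟦X⟧} (h : LogD F P) (h' : LogD H Q) : LogD (F * H) (P + Q) := by
  unfold LogD at *
  rw [eul_mul]
  linear_combination H * h + F * h'

theorem LogD.unique {F P Q : A⟦X⟧} (hF : IsUnit (constantCoeff F)) (h : LogD F P)
    (h' : LogD F Q) : P = Q := by
  have hu : IsUnit F := isUnit_iff_constantCoeff.2 hF
  exact hu.mul_left_cancel (h.trans h'.symm)

theorem LogD.map {B : Type w} [CommRing B] (φ : A →+* B) {F P : A⟦X⟧} (h : LogD F P) :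
    LogD (PowerSeries.map φ F) (PowerSeries.map φ P) := by
  unfold LogD at *
  rw [← map_mul, h, map_neg]
  congr 1
  ext n
  simp [coeff_eul]

theorem LogD.rescale (a : A) {F P : A⟦X⟧} (h : LogD F P) :
    LogD (PowerSeries.rescale a F) (PowerSeries.rescale a P) := by
  unfold LogD at *
  rw [← map_mul, h, map_neg]
  congr 1
  ext n
  simp only [coeff_eul, coeff_rescale]
  ring

/-- The ghost series of a power series with constant term one. -/
noncomputable def ghost (F : A⟦X⟧) : A⟦X⟧ := -(invOfUnit F 1 * eul F)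

theorem logD_ghost {F : A⟦X⟧} (hF : constantCoeff F = 1) : LogD F (ghost F) := by
  unfold LogD ghost
  rw [mul_neg, ← mul_assoc, mul_invOfUnit F 1 (by simpa using hF), one_mul]

theorem LogD.coeff_zero {F P : A⟦X⟧} (hF : IsUnit (constantCoeff F)) (h : LogD F P) :
    coeff 0 P = 0 := by
  have := congrArg (coeff 0) h
  simp only [coeff_zero_eq_constantCoeff_apply, map_mul, map_neg] at this
  rw [← coeff_zero_eq_constantCoeff_apply (eul F), coeff_eul] at this
  simp only [Nat.cast_zero, zero_mul, neg_zero] at this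
  rw [coeff_zero_eq_constantCoeff_apply]
  exact (hF.mul_right_eq_zero).1 this

/-- The geometric ghost series. -/
noncomputable def geom (a : A) : A⟦X⟧ := PowerSeries.mk fun n => if n = 0 then 0 else a ^ n

theorem logD_one_sub (a : A) : LogD (1 - C a * X) (geom a) := by
  unfold LogD
  ext n
  rw [sub_mul, one_mul, mul_assoc, map_sub, coeff_C_mul, map_neg, coeff_eul, map_sub,
    coeff_C_mul]
  rcases n with _ | n
  · simp [geom]
  · rw [coeff_succ_X_mul]
    rcases n with _ | n
    · simp [geom, coeff_one]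
    · simp [geom, coeff_one, coeff_X, pow_succ, mul_comm]

theorem LogD.coeff_eq {F P : A⟦X⟧} (h : LogD F P) (n : ℕ) :
    ∑ x ∈ Finset.HasAntidiagonal.antidiagonal n, coeff x.1 F * coeff x.2 P = -((n : A) * coeff n F) := by
  have := congrArg (coeff n) h
  rwa [coeff_mul, map_neg, coeff_eul] at this

theorem LogD.coeff_one {F P : A⟦X⟧} (hF : constantCoeff F = 1) (h : LogD F P) :
    coeff 1 P = -coeff 1 F := by
  have h0 := h.coeff_zero (by rw [hF]; exact isUnit_one)
  have := h.coeff_eq 1
  rw [Finset.Nat.antidiagonal_succ] at this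
  simpa [h0, hF] using this

/-- If the ghost components below `n` vanish, the `n`-th one is `-n` times the coefficient. -/
theorem LogD.coeff_of_vanish {F P : A⟦X⟧} (hF : constantCoeff F = 1) (h : LogD F P) (n : ℕ)
    (hP : ∀ k, 0 < k → k < n → coeff k P = 0) : coeff n P = -((n : A) * coeff n F) := by
  have h0 := h.coeff_zero (by rw [hF]; exact isUnit_one)
  rw [← h.coeff_eq n, Finset.sum_eq_single (0, n)]
  · simp [hF]
  · rintro ⟨i, j⟩ hx hne
    rw [Finset.HasAntidiagonal.mem_antidiagonal] at hx
    rcases Nat.eq_zero_or_pos j with rfl | hj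
    · simp [h0]
    · have : j < n := by
        rcases Nat.eq_zero_or_pos i with rfl | hi
        · exact absurd (by simpa using hx) (by simpa using hne)
        · simp only at hx; omega
      simp [hP j hj this]
  · intro hx
    exact absurd (by simp) hx

/-- Truncated uniqueness of solutions of `X F' = -F P`. -/
theorem LogD.coeff_eq_of_le {F P H Q : A⟦X⟧} (hA : ∀ (n : ℕ) (a : A), 0 < n → n * a = 0 → a = 0)
    (hF : constantCoeff F = 1) (hH : constantCoeff H = 1) (h : LogD F P) (h' : LogD H Q)
    (K : ℕ) (hPQ : ∀ k, k ≤ K → coeff k P = coeff k Q) (n : ℕ) (hn : n ≤ K) :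
    coeff n F = coeff n H := by
  induction n using Nat.strong_induction_on with
  | _ n ih =>
    rcases Nat.eq_zero_or_pos n with rfl | hpos
    · simp [hF, hH]
    have h0 := h.coeff_zero (by rw [hF]; exact isUnit_one)
    have h0' := h'.coeff_zero (by rw [hH]; exact isUnit_one)
    have e1 := h.coeff_eq n
    have e2 := h'.coeff_eq n
    have e3 : ∑ x ∈ Finset.HasAntidiagonal.antidiagonal n, coeff x.1 F * coeff x.2 P =
        ∑ x ∈ Finset.HasAntidiagonal.antidiagonal n, coeff x.1 H * coeff x.2 Q := by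
      refine Finset.sum_congr rfl ?_
      rintro ⟨i, j⟩ hx
      rw [Finset.HasAntidiagonal.mem_antidiagonal] at hx
      simp only at hx ⊢
      rcases Nat.eq_zero_or_pos j with rfl | hj
      · rw [h0, h0', mul_zero, mul_zero]
      · rw [ih i (by omega) (by omega), hPQ j (by omega)]
    refine sub_eq_zero.1 (hA n _ hpos ?_)
    linear_combination e1 - e2 - e3

/-- `F` has no coefficients above degree `r`. -/
def DegLE (F : A⟦X⟧) (r : ℕ) : Prop := ∀ k, r < k → coeff k F = 0

theorem DegLE.mul {F H : A⟦X⟧} {r s : ℕ} (h : DegLE F r) (h' : DegLE H s) :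
    DegLE (F * H) (r + s) := by
  intro k hk
  rw [coeff_mul]
  refine Finset.sum_eq_zero ?_
  rintro ⟨i, j⟩ hx
  rw [Finset.HasAntidiagonal.mem_antidiagonal] at hx
  simp only at hx ⊢
  by_cases hi : r < i
  · rw [h i hi, zero_mul]
  · rw [h' j (by omega), mul_zero]

theorem DegLE.coeff_mul {F H : A⟦X⟧} {r s : ℕ} (h : DegLE F r) (h' : DegLE H s) :
    coeff (r + s) (F * H) = coeff r F * coeff s H := by
  rw [PowerSeries.coeff_mul, Finset.sum_eq_single (r, s)]
  · rintro ⟨i, j⟩ hx hne
    rw [Finset.HasAntidiagonal.mem_antidiagonal] at hx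
    simp only at hx ⊢
    by_cases hi : r < i
    · rw [h i hi, zero_mul]
    · have : s < j := by
        by_contra hj
        apply hne
        ext <;> simp only <;> omega
      rw [h' j this, mul_zero]
  · intro hx
    exact absurd (by simp) hx

theorem DegLE.rescale {F : A⟦X⟧} {r : ℕ} (h : DegLE F r) (a : A) :
    DegLE (PowerSeries.rescale a F) r := fun k hk => by
  rw [coeff_rescale, h k hk, mul_zero]

theorem DegLE.map {B : Type w} [CommRing B] (φ : A →+* B) {F : A⟦X⟧} {r : ℕ} (h : DegLE F r) :
    DegLE (PowerSeries.map φ F) r := fun k hk => by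
  rw [coeff_map, h k hk, map_zero]

theorem degLE_one_sub (a : A) : DegLE (1 - C a * X) 1 := fun k hk => by
  rw [map_sub, coeff_C_mul, coeff_one, coeff_X, if_neg (by omega), if_neg (by omega)]
  simp

/-- The final comparison of leading coefficients. -/
theorem eq_zero_of_ghost {F P H Q : A⟦X⟧} (hA : ∀ (n : ℕ) (a : A), 0 < n → n * a = 0 → a = 0)
    (hF : constantCoeff F = 1) (hH : constantCoeff H = 1) (h : LogD F P) (h' : LogD H Q)
    {r : ℕ} (hFr : DegLE F r) (hHr : DegLE H r) (hFu : IsUnit (coeff r F))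
    (hHu : IsUnit (coeff r H)) {e z : A} (he : e * e = e) (hz : IsUnit (z - 1)) (hz0 : IsUnit z)
    (hPQ : ∀ k, 0 < k → k ≤ 2 * r + 1 → z ^ k = 1 ∨ coeff k P - coeff k Q = e) : e = 0 := by
  have hpow : ∀ k, 0 < k → e ^ k = e := fun k hk =>
    IsIdempotentElem.pow_eq he (Nat.pos_iff_ne_zero.1 hk)
  have l1 := (h.mul (h'.rescale z)).mul (logD_one_sub (z * e))
  have l2 := ((h.rescale z).mul h').mul (logD_one_sub e)
  have hc : ∀ (S : A⟦X⟧), constantCoeff S = 1 → constantCoeff (PowerSeries.rescale z S) = 1 := by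
    intro S hS
    rw [← coeff_zero_eq_constantCoeff_apply, coeff_rescale, coeff_zero_eq_constantCoeff_apply, hS]
    simp
  have key := LogD.coeff_eq_of_le hA (by simp [hF, hc H hH]) (by simp [hH, hc F hF]) l1 l2
    (2 * r + 1) (by
      intro k hk
      rcases Nat.eq_zero_or_pos k with rfl | hpos
      · have h0 := h.coeff_zero (by rw [hF]; exact isUnit_one)
        have h0' := h'.coeff_zero (by rw [hH]; exact isUnit_one)
        simp only [map_add, coeff_rescale, h0, h0', geom, coeff_mk]
        simp
      · simp only [map_add, coeff_rescale, geom, coeff_mk, if_neg hpos.ne', mul_pow, hpow k hpos]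
        rcases hPQ k hpos hk with h1 | h1
        · rw [h1]; ring
        · linear_combination (1 - z ^ k) * h1) (2 * r + 1) le_rfl
  rw [two_mul, (hFr.mul (hHr.rescale z)).coeff_mul (degLE_one_sub _),
    ((hFr.rescale z).mul hHr).coeff_mul (degLE_one_sub _), hFr.coeff_mul (hHr.rescale z),
    (hFr.rescale z).coeff_mul hHr, coeff_rescale, coeff_rescale] at key
  simp only [map_sub, coeff_C_mul, coeff_one, coeff_X] at key
  have hu : IsUnit (coeff r F * coeff r H * z ^ r * (z - 1)) :=
    ((hFu.mul hHu).mul (hz0.pow r)).mul hz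
  refine (hu.mul_right_eq_zero).1 ?_
  simp only [one_ne_zero, if_false, if_true] at key
  linear_combination (-1 : A) * key

/-- Cartier identity over an algebraically closed field of characteristic `l`. -/
theorem ghost_frobenius_of_splits {K : Type u} [Field K] (l : ℕ) [Fact l.Prime] [CharP K l]
    (q : Polynomial K) (hq : q.Splits) (h0 : q.coeff 0 ≠ 0) :
    ∃ P : K⟦X⟧, LogD (q : K⟦X⟧) P ∧ ∀ m, coeff (l * m) P = coeff m P ^ l := by
  have hl : l ≠ 0 := (Fact.out : l.Prime).ne_zero
  induction hq using Submonoid.closure_induction with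
  | mem x hx =>
    rcases hx with ⟨a, rfl⟩ | ⟨a, rfl⟩
    · refine ⟨0, ?_, fun m => by simp [hl]⟩
      unfold LogD
      ext n
      rw [mul_zero, map_zero, map_neg, coeff_eul, Polynomial.coeff_coe, Polynomial.coeff_C]
      split_ifs with hn <;> simp [hn]
    · have ha : a ≠ 0 := by simpa using h0
      refine ⟨geom (-a⁻¹), ?_, fun m => ?_⟩
      · have h1 : LogD (C a : K⟦X⟧) 0 := by
          unfold LogD
          ext n
          rw [mul_zero, map_zero, map_neg, coeff_eul, coeff_C]
          split_ifs with hn <;> simp [hn]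
        have h2 := h1.mul (logD_one_sub (-a⁻¹))
        rw [zero_add] at h2
        convert h2 using 1
        rw [Polynomial.coe_add, Polynomial.coe_X, Polynomial.coe_C, mul_sub, ← mul_assoc,
          ← map_mul, mul_neg, mul_inv_cancel₀ ha]
        simp only [map_neg, map_one]
        ring
      · simp only [geom, coeff_mk, mul_eq_zero, hl, false_or]
        split_ifs
        · simp [hl]
        · rw [← pow_mul, mul_comm]
  | one =>
    refine ⟨0, ?_, fun m => by simp [hl]⟩
    unfold LogD
    ext n
    rw [mul_zero, map_zero, map_neg, coeff_eul, Polynomial.coeff_coe, Polynomial.coeff_one]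
    split_ifs with hn <;> simp [hn]
  | mul x y _ _ hx hy =>
    rw [Polynomial.mul_coeff_zero] at h0
    obtain ⟨P, hP, hP'⟩ := hx (left_ne_zero_of_mul h0)
    obtain ⟨Q, hQ, hQ'⟩ := hy (right_ne_zero_of_mul h0)
    refine ⟨P + Q, by rw [Polynomial.coe_mul]; exact hP.mul hQ, fun m => ?_⟩
    rw [map_add, map_add, hP', hQ', add_pow_char]

theorem ghost_frobenius {K : Type u} [Field K] [IsAlgClosed K] (l : ℕ) [Fact l.Prime] [CharP K l]
    {F P : K⟦X⟧} {r : ℕ} (hF : constantCoeff F = 1) (hr : DegLE F r) (h : LogD F P) (m : ℕ) :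
    coeff (l * m) P = coeff m P ^ l := by
  have hq : ((trunc (r + 1) F : Polynomial K) : K⟦X⟧) = F := by
    ext k
    rw [Polynomial.coeff_coe, coeff_trunc]
    split_ifs with hk
    · rfl
    · exact (hr k (by omega)).symm
  obtain ⟨Q, hQ, hQ'⟩ := ghost_frobenius_of_splits l (trunc (r + 1) F) (IsAlgClosed.splits _) (by
    rw [coeff_trunc, if_pos (by omega), coeff_zero_eq_constantCoeff_apply, hF]
    exact one_ne_zero)
  rw [hq] at hQ
  rw [LogD.unique (by rw [hF]; exact isUnit_one) h hQ, hQ']

/-- Two idempotents congruent modulo every prime containing `l` agree in an `l`-adically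
separated ring. -/
theorem idem_eq_of_congr {l : A} (hsep : ∀ x : A, (∀ k : ℕ, l ^ k ∣ x) → x = 0) {a b : A}
    (ha : a * a = a) (hb : b * b = b)
    (h : ∀ p : Ideal A, p.IsPrime → l ∈ p → a - b ∈ p) : a = b := by
  have hrad : a - b ∈ (Ideal.span {l}).radical := by
    rw [Ideal.radical_eq_sInf, Ideal.mem_sInf]
    rintro p ⟨hp1, hp2⟩
    exact h p hp2 (hp1 (Ideal.subset_span rfl))
  obtain ⟨k, hk⟩ := hrad
  rw [Ideal.mem_span_singleton] at hk
  have hy : (a - b) ^ 2 * (a - b) ^ 2 = (a - b) ^ 2 := by
    linear_combination (a ^ 2 + a + 1 - 4 * a * b - 4 * b + 6 * b ^ 2 - 1) * ha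
      + (b ^ 2 + b - 4 * a * b + 2 * a) * hb
  have hw : ∀ j : ℕ, 0 < j → ((a - b) ^ 2) ^ j = (a - b) ^ 2 := fun j hj =>
    IsIdempotentElem.pow_eq hy hj.ne'
  have h1 : l ∣ (a - b) ^ 2 := by
    rw [← hw (k + 1) (Nat.succ_pos k), ← pow_mul]
    exact hk.trans (pow_dvd_pow _ (by omega))
  have h2 : (a - b) ^ 2 = 0 := by
    refine hsep _ fun j => ?_
    rw [← hw (j + 1) (Nat.succ_pos j)]
    exact (pow_dvd_pow_of_dvd h1 j).trans (pow_dvd_pow _ (by omega))
  have h3 : a - b = (a - b) * (a - b) ^ 2 := by
    linear_combination (-a - 1 + 3 * b) * ha + (b + 1 - 3 * a) * hb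
  rw [h2, mul_zero] at h3
  exact sub_eq_zero.1 h3

end Pool.Agent.Lib.MP_6995cd_al
end

-- part Pool.Agent.Lib.MP_6995cd_al.Lambda
section

/-! Exterior powers of representations and the Adams operations. -/

universe u v w

open TensorProduct PowerSeries

namespace Pool.Agent.Lib.MP_6995cd_al

section linear

variable {R : Type u} [CommRing R] {M N M' N' : Type u} [AddCommGroup M] [Module R M]
  [AddCommGroup N] [Module R N] [AddCommGroup M'] [Module R M'] [AddCommGroup N'] [Module R N']

theorem coe_extMap (k : ℕ) (f : M →ₗ[R] N) (x : ⋀[R]^k M) :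
    ((exteriorPower.map k f x : ⋀[R]^k N) : ExteriorAlgebra R N) =
      ExteriorAlgebra.map f (x : ExteriorAlgebra R M) := by
  have : (⋀[R]^k N).subtype ∘ₗ exteriorPower.map k f =
      (ExteriorAlgebra.map f).toLinearMap ∘ₗ (⋀[R]^k M).subtype := by
    apply exteriorPower.linearMap_ext
    ext m
    simp [ExteriorAlgebra.map_apply_ιMulti]
  exact congrArg (fun φ => φ x) this

variable (R M N) in
/-- The wedge map into the exterior algebra of the product. -/
noncomputable def wedge0 (i j : ℕ) : (⋀[R]^i M) ⊗[R] (⋀[R]^j N) →ₗ[R] ExteriorAlgebra R (M × N) :=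
  LinearMap.mul' R _ ∘ₗ TensorProduct.map
    ((ExteriorAlgebra.map (LinearMap.inl R M N)).toLinearMap ∘ₗ (⋀[R]^i M).subtype)
    ((ExteriorAlgebra.map (LinearMap.inr R M N)).toLinearMap ∘ₗ (⋀[R]^j N).subtype)

theorem wedge0_tmul (i j : ℕ) (x : ⋀[R]^i M) (y : ⋀[R]^j N) :
    wedge0 R M N i j (x ⊗ₜ y) = ExteriorAlgebra.map (LinearMap.inl R M N) x *
      ExteriorAlgebra.map (LinearMap.inr R M N) y := by
  simp [wedge0]

theorem wedge0_mem (i j : ℕ) (z : (⋀[R]^i M) ⊗[R] (⋀[R]^j N)) :
    wedge0 R M N i j z ∈ ⋀[R]^(i + j) (M × N) := by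
  induction z using TensorProduct.induction_on with
  | zero => simp
  | tmul x y =>
    rw [wedge0_tmul, ← coe_extMap, ← coe_extMap, ExteriorAlgebra.exteriorPower, pow_add]
    exact Submodule.mul_mem_mul (Subtype.prop _) (Subtype.prop _)
  | add a b ha hb => rw [map_add]; exact add_mem ha hb

theorem wedge0_natural (i j : ℕ) (f : M →ₗ[R] M') (g : N →ₗ[R] N')
    (z : (⋀[R]^i M) ⊗[R] (⋀[R]^j N)) :
    wedge0 R M' N' i j (TensorProduct.map (exteriorPower.map i f) (exteriorPower.map j g) z) =
      ExteriorAlgebra.map (f.prodMap g) (wedge0 R M N i j z) := by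
  induction z using TensorProduct.induction_on with
  | zero => simp
  | tmul x y =>
    rw [TensorProduct.map_tmul, wedge0_tmul, wedge0_tmul, coe_extMap, coe_extMap, map_mul]
    simp only [← AlgHom.comp_apply, ExteriorAlgebra.map_comp_map]
    congr 3
    · ext <;> simp
    · ext <;> simp
  | add a b ha hb => simp only [map_add, ha, hb]

variable (R M N) in
/-- The total wedge map. -/
noncomputable def wedgeTot (k : ℕ) :
    (∀ x : (Finset.HasAntidiagonal.antidiagonal k : Finset (ℕ × ℕ)),
      (⋀[R]^x.1.1 M) ⊗[R] (⋀[R]^x.1.2 N)) →ₗ[R] ⋀[R]^k (M × N) :=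
  LinearMap.codRestrict _ (∑ x : (Finset.HasAntidiagonal.antidiagonal k : Finset (ℕ × ℕ)),
    wedge0 R M N x.1.1 x.1.2 ∘ₗ LinearMap.proj x) (by
    intro z
    rw [LinearMap.sum_apply]
    refine Submodule.sum_mem _ fun x _ => ?_
    have hx : x.1.1 + x.1.2 = k := Finset.HasAntidiagonal.mem_antidiagonal.1 x.2
    have := wedge0_mem x.1.1 x.1.2 (z x)
    rwa [hx] at this)

theorem coe_wedgeTot (k : ℕ) (z) : ((wedgeTot R M N k z : ⋀[R]^k (M × N)) :
    ExteriorAlgebra R (M × N)) = ∑ x, wedge0 R M N x.1.1 x.1.2 (z x) := by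
  simp [wedgeTot]

theorem wedgeTot_surjective (k : ℕ) : Function.Surjective (wedgeTot R M N k) := by
  classical
  let T : Submodule R (ExteriorAlgebra R (M × N)) :=
    (LinearMap.range (wedgeTot R M N k)).map (⋀[R]^k (M × N)).subtype
  let P : Submodule R (ExteriorAlgebra R (M × N)) :=
    (LinearMap.range (ExteriorAlgebra.ι R (M := M))).map
      (ExteriorAlgebra.map (LinearMap.inl R M N)).toLinearMap
  let Q : Submodule R (ExteriorAlgebra R (M × N)) :=
    (LinearMap.range (ExteriorAlgebra.ι R (M := N))).map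
      (ExteriorAlgebra.map (LinearMap.inr R M N)).toLinearMap
  have hPQ : LinearMap.range (ExteriorAlgebra.ι R (M := M × N)) ≤ P + Q := by
    rintro _ ⟨⟨a, b⟩, rfl⟩
    have : ExteriorAlgebra.ι R (a, b) = ExteriorAlgebra.ι R (a, (0 : N)) +
        ExteriorAlgebra.ι R ((0 : M), b) := by
      rw [← map_add]; simp
    rw [this, Submodule.add_eq_sup]
    refine Submodule.add_mem_sup ⟨_, ⟨a, rfl⟩, ?_⟩ ⟨_, ⟨b, rfl⟩, ?_⟩ <;> simp
  have hcomm : Commute P Q := by
    have aux : ∀ S U : Submodule R (ExteriorAlgebra R (M × N)),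
        S ≤ LinearMap.range (ExteriorAlgebra.ι R (M := M × N)) →
        U ≤ LinearMap.range (ExteriorAlgebra.ι R (M := M × N)) → S * U ≤ U * S := by
      intro S U hS hU
      rw [Submodule.mul_le]
      intro a ha b hb
      have h1 := Submodule.mul_mem_mul hb ha
      obtain ⟨a, rfl⟩ := hS ha
      obtain ⟨b, rfl⟩ := hU hb
      rw [eq_neg_of_add_eq_zero_left (ExteriorAlgebra.ι_add_mul_swap a b)]
      exact neg_mem h1
    have hP : P ≤ LinearMap.range (ExteriorAlgebra.ι R (M := M × N)) := by
      rintro _ ⟨_, ⟨a, rfl⟩, rfl⟩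
      exact ⟨(a, 0), by simp⟩
    have hQ : Q ≤ LinearMap.range (ExteriorAlgebra.ι R (M := M × N)) := by
      rintro _ ⟨_, ⟨a, rfl⟩, rfl⟩
      exact ⟨(0, a), by simp⟩
    exact le_antisymm (aux P Q hP hQ) (aux Q P hQ hP)
  have hT : (P + Q) ^ k ≤ T := by
    rw [hcomm.add_pow']
    refine Finset.sum_induction _ (fun S => S ≤ T) (fun a b ha hb => ?_) bot_le ?_
    · rw [Submodule.add_eq_sup]; exact sup_le ha hb
    · intro x hx
      have h1 : P ^ x.1 * Q ^ x.2 ≤ T := by
        rw [← Submodule.map_pow, ← Submodule.map_pow, Submodule.mul_le]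
        rintro _ ⟨a, ha, rfl⟩ _ ⟨b, hb, rfl⟩
        refine ⟨_, ⟨Pi.single ⟨x, hx⟩ ((⟨a, ha⟩ : ⋀[R]^x.1 M) ⊗ₜ (⟨b, hb⟩ : ⋀[R]^x.2 N)), rfl⟩, ?_⟩
        rw [Submodule.subtype_apply, coe_wedgeTot, Finset.sum_eq_single ⟨x, hx⟩]
        · rw [Pi.single_eq_same, wedge0_tmul]
          rfl
        · intro y _ hy
          rw [Pi.single_eq_of_ne hy, map_zero]
        · intro h
          exact absurd (Finset.mem_univ _) h
      generalize k.choose x.1 = c
      induction c with
      | zero => simp
      | succ c ih => rw [succ_nsmul, Submodule.add_eq_sup]; exact sup_le ih h1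
  intro y
  have hy : (y : ExteriorAlgebra R (M × N)) ∈ T :=
    hT (pow_le_pow_left' hPQ k y.2)
  obtain ⟨_, ⟨z, rfl⟩, hz⟩ := hy
  exact ⟨z, Subtype.ext hz⟩

theorem bijective_of_surjective_of_finrank_eq {M N : Type u} [AddCommMonoid M] [Module R M]
    [AddCommMonoid N] [Module R N] [Nontrivial R] [Module.Free R M] [Module.Finite R M]
    [Module.Free R N] [Module.Finite R N] (f : M →ₗ[R] N) (hf : Function.Surjective f)
    (h : Module.finrank R M = Module.finrank R N) : Function.Bijective f := by
  let e : N ≃ₗ[R] M := LinearEquiv.ofFinrankEq _ _ h.symm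
  have h1 : Function.Injective (e.toLinearMap ∘ₗ f) :=
    OrzechProperty.injective_of_surjective_endomorphism _ (e.surjective.comp hf)
  exact ⟨Function.Injective.of_comp (f := e) h1, hf⟩

theorem wedgeTot_bijective [Nontrivial R] [Module.Free R M] [Module.Finite R M]
    [Module.Free R N] [Module.Finite R N] (k : ℕ) : Function.Bijective (wedgeTot R M N k) := by
  refine bijective_of_surjective_of_finrank_eq _ (wedgeTot_surjective k) ?_
  have h1 : Module.finrank R (⋀[R]^k (M × N)) =
      ∑ x : (Finset.HasAntidiagonal.antidiagonal k : Finset (ℕ × ℕ)),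
        (Module.finrank R M).choose x.1.1 * (Module.finrank R N).choose x.1.2 := by
    rw [exteriorPower.finrank_eq, Module.finrank_prod, Nat.add_choose_eq]
    exact (Finset.sum_coe_sort (Finset.HasAntidiagonal.antidiagonal k)
      (fun x : ℕ × ℕ => (Module.finrank R M).choose x.1 * (Module.finrank R N).choose x.2)).symm
  have h2 : ∀ i j : ℕ, Module.finrank R ((⋀[R]^i M) ⊗[R] (⋀[R]^j N)) =
      (Module.finrank R M).choose i * (Module.finrank R N).choose j := by
    intro i j
    rw [Module.finrank_tensorProduct, exteriorPower.finrank_eq, exteriorPower.finrank_eq]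
  rw [h1, Module.finrank_pi_fintype R]
  exact Finset.sum_congr rfl fun x _ => h2 _ _

end linear

variable {R : Type u} {G : Type v} [CommRing R] [Monoid G]

/-- Exterior power of a representation. -/
noncomputable abbrev FRep.extp (k : ℕ) (M : FRep R G) : FRep R G where
  V := ⋀[R]^k M.V
  ρ :=
    { toFun := fun g => exteriorPower.map k (M.ρ g)
      map_one' := by rw [map_one, Module.End.one_eq_id, exteriorPower.map_id]; rfl
      map_mul' := fun g h => by
        rw [map_mul, Module.End.mul_eq_comp, exteriorPower.map_comp]; rfl }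

theorem FRep.Iso.extp {M N : FRep R G} (h : M.Iso N) (k : ℕ) : (M.extp k).Iso (N.extp k) := by
  obtain ⟨e, he⟩ := h
  refine ⟨LinearEquiv.ofLinearMap (exteriorPower.map k e.toLinearMap)
    (exteriorPower.map k e.symm.toLinearMap) ?_ ?_, fun g x => ?_⟩
  · rw [← exteriorPower.map_comp, LinearEquiv.comp_symm, exteriorPower.map_id]
  · rw [← exteriorPower.map_comp, LinearEquiv.symm_comp, exteriorPower.map_id]
  · change exteriorPower.map k e.toLinearMap (exteriorPower.map k (M.ρ g) x) =
      exteriorPower.map k (N.ρ g) (exteriorPower.map k e.toLinearMap x)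
    rw [← LinearMap.comp_apply, ← LinearMap.comp_apply, ← exteriorPower.map_comp,
      ← exteriorPower.map_comp]
    congr 2
    ext y
    exact he g y

theorem cl_extp_sum [Nontrivial R] (M N : FRep R G) (k : ℕ) :
    cl ((M.sum N).extp k) = ∑ x ∈ Finset.HasAntidiagonal.antidiagonal k,
      cl (M.extp x.1) * cl (N.extp x.2) := by
  rw [← Finset.sum_coe_sort]
  simp only [← cl_tensor]
  rw [← cl_pi]
  symm
  refine cl_congr ⟨LinearEquiv.ofBijective (wedgeTot R M.V N.V k) (wedgeTot_bijective k),
    fun g z => ?_⟩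
  apply Subtype.ext
  change ((wedgeTot R M.V N.V k fun x => TensorProduct.map (exteriorPower.map _ (M.ρ g))
    (exteriorPower.map _ (N.ρ g)) (z x) : ⋀[R]^k (M.V × N.V)) : ExteriorAlgebra R (M.V × N.V)) =
    (exteriorPower.map k ((M.ρ g).prodMap (N.ρ g)) (wedgeTot R M.V N.V k z) : ⋀[R]^k (M.V × N.V))
  rw [coe_extMap, coe_wedgeTot, coe_wedgeTot, map_sum]
  exact Finset.sum_congr rfl fun x _ => wedge0_natural _ _ _ _ _

theorem cl_extp_zero (M : FRep R G) : cl (M.extp 0) = 1 := by
  rw [← cl_one]
  refine cl_congr ⟨exteriorPower.zeroEquiv R M.V, fun g x => ?_⟩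
  exact congrArg (fun φ => φ x) (exteriorPower.zeroEquiv_naturality (M.ρ g))

theorem cl_extp_one (M : FRep R G) : cl (M.extp 1) = cl M := by
  refine cl_congr ⟨exteriorPower.oneEquiv R M.V, fun g x => ?_⟩
  exact congrArg (fun φ => φ x) (exteriorPower.oneEquiv_naturality (M.ρ g))

theorem cl_extp_of_lt [Nontrivial R] (M : FRep R G) {k : ℕ} (hk : Module.finrank R M.V < k) :
    cl (M.extp k) = 0 := by
  have : Subsingleton (M.extp k).V := by
    rw [← Module.finrank_eq_zero_iff_of_free R, exteriorPower.finrank_eq,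
      Nat.choose_eq_zero_of_lt hk]
  exact cl_of_subsingleton _

theorem isUnit_cl_extp_top {G : Type v} [Group G] [Nontrivial R] (M : FRep R G) :
    IsUnit (cl (M.extp (Module.finrank R M.V))) :=
  isUnit_cl_of_finrank_eq_one _ (by rw [exteriorPower.finrank_eq, Nat.choose_self])

/-- The alternating generating series of the exterior powers. -/
noncomputable def Lam (M : FRep R G) : (RepRing R G)⟦X⟧ :=
  PowerSeries.mk fun k => (-1) ^ k * cl (M.extp k)

theorem coeff_Lam (M : FRep R G) (k : ℕ) : coeff k (Lam M) = (-1) ^ k * cl (M.extp k) := by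
  simp [Lam]

theorem constantCoeff_Lam (M : FRep R G) : constantCoeff (Lam M) = 1 := by
  rw [← coeff_zero_eq_constantCoeff_apply, coeff_Lam, cl_extp_zero]; simp

theorem Lam_congr {M N : FRep R G} (h : M.Iso N) : Lam M = Lam N := by
  ext k
  rw [coeff_Lam, coeff_Lam, cl_congr (h.extp k)]

theorem Lam_sum [Nontrivial R] (M N : FRep R G) : Lam (M.sum N) = Lam M * Lam N := by
  ext k
  rw [coeff_Lam, cl_extp_sum, coeff_mul, Finset.mul_sum]
  refine Finset.sum_congr rfl fun x hx => ?_
  rw [coeff_Lam, coeff_Lam, ← Finset.HasAntidiagonal.mem_antidiagonal.1 hx]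
  ring

theorem degLE_Lam [Nontrivial R] (M : FRep R G) : DegLE (Lam M) (Module.finrank R M.V) :=
  fun k hk => by rw [coeff_Lam, cl_extp_of_lt M hk, mul_zero]

/-- The generating series of the Adams operations, as an additive map. -/
noncomputable def adams [Nontrivial R] : RepRing R G →+ (RepRing R G)⟦X⟧ :=
  liftAdd (fun M => ghost (Lam M)) (fun M N h => by rw [Lam_congr h]) (fun M N => by
    have h1 := logD_ghost (constantCoeff_Lam (M.sum N))
    have h2 := (logD_ghost (constantCoeff_Lam M)).mul (logD_ghost (constantCoeff_Lam N))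
    rw [← Lam_sum] at h2
    exact LogD.unique (by rw [constantCoeff_Lam]; exact isUnit_one) h1 h2)

theorem logD_adams [Nontrivial R] (M : FRep R G) : LogD (Lam M) (adams (cl M)) := by
  unfold adams
  rw [liftAdd_cl]
  exact logD_ghost (constantCoeff_Lam M)

/-- The `n`-th Adams operation. -/
noncomputable def psi [Nontrivial R] (n : ℕ) : RepRing R G →+ RepRing R G :=
  (coeff n).toAddMonoidHom.comp adams

theorem psi_apply [Nontrivial R] (n : ℕ) (x : RepRing R G) : psi n x = coeff n (adams x) := rfl

theorem psi_one [Nontrivial R] (x : RepRing R G) : psi 1 x = x := by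
  have : (psi 1 : RepRing R G →+ RepRing R G) = AddMonoidHom.id _ := by
    refine addHom_ext fun M => ?_
    rw [psi_apply, (logD_adams M).coeff_one (constantCoeff_Lam M), coeff_Lam, cl_extp_one]
    simp
  rw [this]; rfl

theorem psi_map_one [Nontrivial R] {n : ℕ} (hn : n ≠ 0) : psi n (1 : RepRing R G) = 1 := by
  have h1 : Lam (FRep.triv R G) = 1 - C 1 * X := by
    ext k
    rcases k with _ | _ | k
    · rw [coeff_Lam, cl_extp_zero]; simp
    · rw [coeff_Lam, cl_extp_one, cl_one]; simp [coeff_one]
    · rw [degLE_Lam _ _ (by simp), degLE_one_sub _ _ (by omega)]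
  have h2 := logD_adams (FRep.triv R G)
  rw [h1, cl_one] at h2
  rw [psi_apply, LogD.unique (by simp) h2 (logD_one_sub 1)]
  simp [geom, hn]

/-- Frobenius congruence for Adams operations modulo primes above `l`. -/
theorem psi_mul_congr [Nontrivial R] {l : ℕ} (hl : l.Prime) (m : ℕ) (p : Ideal (RepRing R G))
    (hp : p.IsPrime) (hlp : (l : RepRing R G) ∈ p) (x : RepRing R G) :
    psi (l * m) x - psi m x ^ l ∈ p := by
  haveI := Fact.mk hl
  let K := AlgebraicClosure p.ResidueField
  let φ : RepRing R G →+* K := (algebraMap p.ResidueField K).comp (algebraMap _ p.ResidueField)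
  have hker : ∀ y, φ y = 0 ↔ y ∈ p := by
    intro y
    simp only [φ, RingHom.comp_apply, _root_.map_eq_zero, Ideal.algebraMap_residueField_eq_zero]
  haveI : CharP K l := by
    have h0 : ((l : ℕ) : K) = 0 := by
      rw [← map_natCast φ, hker]; exact hlp
    exact (CharP.charP_iff_prime_eq_zero hl).2 h0
  have key : ∀ M : FRep R G, φ (psi (l * m) (cl M)) = φ (psi m (cl M)) ^ l := by
    intro M
    have := ghost_frobenius l (F := PowerSeries.map φ (Lam M)) (by
      rw [← coeff_zero_eq_constantCoeff_apply, coeff_map, coeff_zero_eq_constantCoeff_apply,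
        constantCoeff_Lam, map_one]) ((degLE_Lam M).map φ) ((logD_adams M).map φ) m
    simpa only [coeff_map, psi_apply] using this
  obtain ⟨M, N, rfl⟩ := exists_sub x
  rw [← hker, map_sub, map_pow, map_sub, map_sub, map_sub, map_sub, key, key, sub_pow_char,
    sub_self]

end Pool.Agent.Lib.MP_6995cd_al
end

-- part Pool.Agent.Lib.MP_6995cd_al.Eigen
section

/-! Eigenspace decomposition for an action of a cyclic group of invertible order. -/

universe u v w

open TensorProduct PowerSeries

namespace Pool.Agent.Lib.MP_6995cd_al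

variable {n : ℕ} [NeZero n]

/-- A character whose non-trivial values differ from one by a unit. -/
def GoodChar {S : Type w} [CommRing S] (χ : AddChar (ZMod n) S) : Prop :=
  ∀ a : ZMod n, a ≠ 0 → IsUnit (χ a - 1)

theorem GoodChar.sum_eq {S : Type w} [CommRing S] {χ : AddChar (ZMod n) S} (hχ : GoodChar χ)
    (s : ZMod n) : ∑ c : ZMod n, χ (s * c) = if s = 0 then (n : S) else 0 := by
  split_ifs with hs
  · simp [hs]
  · have h1 : ∑ c : ZMod n, χ (s * (c + 1)) = ∑ c : ZMod n, χ (s * c) :=
      Equiv.sum_comp (Equiv.addRight (1 : ZMod n)) (fun c => χ (s * c))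
    simp only [mul_add, mul_one, AddChar.map_add_eq_mul, ← Finset.sum_mul] at h1
    refine ((hχ s hs).mul_left_eq_zero).1 ?_
    rw [mul_sub, h1, mul_one, sub_self]

/-- Data making the cyclic group algebra split. -/
structure CycData (R : Type u) [CommRing R] (n : ℕ) [NeZero n] where
  χ : AddChar (ZMod n) R
  u : R
  hu : u * n = 1
  good : GoodChar χ

section linear

variable {R : Type u} [CommRing R] (d : CycData R n) {V : Type u} [AddCommGroup V] [Module R V]
  (s : AddChar (ZMod n) (Module.End R V))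

/-- Eigenspace. -/
def eig (j : ZMod n) : Submodule R V where
  carrier := {v | ∀ c, s c v = d.χ (j * c) • v}
  add_mem' := fun {a b} ha hb c => by rw [map_add, ha c, hb c, smul_add]
  zero_mem' := fun c => by simp
  smul_mem' := fun r a ha c => by rw [map_smul, ha c, smul_comm]

theorem mem_eig {j : ZMod n} {v : V} : v ∈ eig d s j ↔ ∀ c, s c v = d.χ (j * c) • v := Iff.rfl

/-- Projection onto the eigenspace. -/
noncomputable def eproj (j : ZMod n) : Module.End R V := d.u • ∑ c, d.χ (-(j * c)) • s c

theorem eproj_apply (j : ZMod n) (v : V) :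
    eproj d s j v = d.u • ∑ c, d.χ (-(j * c)) • s c v := by
  simp [eproj, LinearMap.sum_apply]

theorem eproj_mem (j : ZMod n) (v : V) : eproj d s j v ∈ eig d s j := by
  intro c
  rw [eproj_apply, map_smul, map_sum, smul_comm (d.χ (j * c))]
  congr 1
  rw [Finset.smul_sum,
    ← Equiv.sum_comp (Equiv.addLeft c) (fun c' => d.χ (j * c) • d.χ (-(j * c')) • s c' v)]
  refine Finset.sum_congr rfl fun c' _ => ?_
  rw [map_smul, Equiv.coe_addLeft, smul_smul, ← AddChar.map_add_eq_mul, AddChar.map_add_eq_mul s,
    Module.End.mul_apply]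
  congr 2
  ring

theorem eproj_of_mem {i : ZMod n} {v : V} (hv : v ∈ eig d s i) (j : ZMod n) :
    eproj d s j v = if i = j then v else 0 := by
  rw [eproj_apply]
  have : ∀ c, d.χ (-(j * c)) • s c v = d.χ ((i - j) * c) • v := by
    intro c
    rw [hv c, smul_smul, ← AddChar.map_add_eq_mul]
    congr 2
    ring
  simp only [this, ← Finset.sum_smul, d.good.sum_eq, sub_eq_zero, smul_smul]
  split_ifs
  · rw [d.hu, one_smul]
  · simp

theorem sum_eproj (v : V) : ∑ j, eproj d s j v = v := by
  simp only [eproj_apply, ← Finset.smul_sum]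
  rw [Finset.sum_comm]
  have : ∀ c : ZMod n, ∑ j, d.χ (-(j * c)) • s c v = if c = 0 then (n : R) • v else 0 := by
    intro c
    rw [← Finset.sum_smul]
    have h1 : ∀ j : ZMod n, -(j * c) = (-c) * j := fun j => by ring
    simp only [h1, d.good.sum_eq, neg_eq_zero]
    split_ifs with hc
    · rw [hc, AddChar.map_zero_eq_one, Module.End.one_apply]
    · simp
  simp only [this, Finset.sum_ite_eq', Finset.mem_univ, if_true, smul_smul, d.hu, one_smul]

/-- The eigenspace decomposition. -/
noncomputable def eigEquiv : V ≃ₗ[R] (∀ j, eig d s j) :=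
  LinearEquiv.ofLinearMap
    (LinearMap.pi fun j => LinearMap.codRestrict _ (eproj d s j) (eproj_mem d s j))
    (∑ j, (eig d s j).subtype ∘ₗ LinearMap.proj j)
    (by
      refine LinearMap.ext fun x => funext fun j => Subtype.ext ?_
      simp only [LinearMap.comp_apply, LinearMap.pi_apply, LinearMap.codRestrict_apply,
        LinearMap.sum_apply, LinearMap.proj_apply, Submodule.subtype_apply,
        LinearMap.id_apply]
      rw [map_sum, Finset.sum_eq_single j]
      · rw [eproj_of_mem d s (x j).2, if_pos rfl]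
      · intro i _ hi
        rw [eproj_of_mem d s (x i).2, if_neg hi]
      · intro h
        exact absurd (Finset.mem_univ _) h)
    (by
      refine LinearMap.ext fun x => ?_
      simp only [LinearMap.comp_apply, LinearMap.pi_apply, LinearMap.codRestrict_apply,
        LinearMap.sum_apply, LinearMap.proj_apply, Submodule.subtype_apply,
        LinearMap.id_apply]
      exact sum_eproj d s x)

theorem eigEquiv_symm_apply (x : ∀ j, eig d s j) : (eigEquiv d s).symm x = ∑ j, (x j : V) := by
  simp [eigEquiv, LinearMap.sum_apply]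

theorem eig_finite [Module.Finite R V] (j : ZMod n) : Module.Finite R (eig d s j) :=
  Module.Finite.of_surjective (LinearMap.codRestrict _ (eproj d s j) (eproj_mem d s j))
    (fun x => ⟨x, Subtype.ext (by
      rw [LinearMap.codRestrict_apply, eproj_of_mem d s x.2, if_pos rfl])⟩)

theorem eig_free [IsLocalRing R] [Module.Finite R V] [Module.Free R V] (j : ZMod n) :
    Module.Free R (eig d s j) := by
  haveI := eig_finite d s j
  haveI : Module.Projective R (eig d s j) :=
    Module.Projective.of_split (eig d s j).subtype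
      (LinearMap.codRestrict _ (eproj d s j) (eproj_mem d s j)) (by
        ext x
        simp [eproj_of_mem d s x.2])
  exact Module.free_of_flat_of_isLocalRing

end linear

variable {R : Type u} [CommRing R] [IsLocalRing R] (d : CycData R n)

section eigenRep

variable {H : Type v} [Monoid H]

/-- Eigenspace of a commuting cyclic action, as a representation. -/
noncomputable abbrev FRep.eigen (Z : FRep R H) (d : CycData R n)
    (s : AddChar (ZMod n) (Module.End R Z.V))
    (hs : ∀ g c v, s c (Z.ρ g v) = Z.ρ g (s c v)) (j : ZMod n) : FRep R H where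
  V := eig d s j
  free := eig_free d s j
  fin := eig_finite d s j
  ρ := Z.ρ.subrepresentation (eig d s j) (fun g v hv c => by rw [hs, hv c, map_smul])

theorem cl_eq_sum_eigen (Z : FRep R H) (s : AddChar (ZMod n) (Module.End R Z.V))
    (hs : ∀ g c v, s c (Z.ρ g v) = Z.ρ g (s c v)) : cl Z = ∑ j, cl (Z.eigen d s hs j) := by
  rw [← cl_pi]
  symm
  refine cl_congr ⟨(eigEquiv d s).symm, fun g x => ?_⟩
  erw [eigEquiv_symm_apply, eigEquiv_symm_apply, map_sum]
  rfl

end eigenRep

variable {G : Type v} [Monoid G]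

/-- The action of the cyclic factor. -/
def FRep.cyc (Z : FRep R (G × Multiplicative (ZMod n))) : AddChar (ZMod n) (Module.End R Z.V) where
  toFun c := Z.ρ (1, Multiplicative.ofAdd c)
  map_zero_eq_one' := map_one Z.ρ
  map_add_eq_mul' a b := by rw [← map_mul]; simp

theorem FRep.cyc_apply (Z : FRep R (G × Multiplicative (ZMod n))) (c : ZMod n) :
    Z.cyc c = Z.ρ (1, Multiplicative.ofAdd c) := rfl

theorem FRep.cyc_comm (Z : FRep R (G × Multiplicative (ZMod n))) (g c v) :
    Z.cyc c (Z.ρ g v) = Z.ρ g (Z.cyc c v) := by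
  rw [FRep.cyc_apply, ← Module.End.mul_apply, ← Module.End.mul_apply, ← map_mul, ← map_mul]
  congr 2
  ext <;> simp [mul_comm]

/-- Restriction to the first factor. -/
abbrev FRep.res (Z : FRep R (G × Multiplicative (ZMod n))) : FRep R G where
  V := Z.V
  ρ := Z.ρ.comp (MonoidHom.inl G _)

/-- The isotypic part. -/
noncomputable abbrev FRep.part (Z : FRep R (G × Multiplicative (ZMod n))) (d : CycData R n)
    (j : ZMod n) : FRep R (G × Multiplicative (ZMod n)) := Z.eigen d Z.cyc Z.cyc_comm j

/-- The cyclic factor acts by the `j`-th character. -/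
def FRep.IsScalar (Z : FRep R (G × Multiplicative (ZMod n))) (d : CycData R n) (j : ZMod n) :
    Prop := ∀ c v, Z.ρ (1, Multiplicative.ofAdd c) v = d.χ (j * c) • v

theorem FRep.part_isScalar (Z : FRep R (G × Multiplicative (ZMod n))) (j : ZMod n) :
    (Z.part d j).IsScalar d j := fun c v => Subtype.ext (v.2 c)

theorem FRep.Iso.res {Z Z' : FRep R (G × Multiplicative (ZMod n))} (h : Z.Iso Z') :
    Z.res.Iso Z'.res := by
  obtain ⟨e, he⟩ := h
  exact ⟨e, fun g x => he _ x⟩

theorem FRep.Iso.part {Z Z' : FRep R (G × Multiplicative (ZMod n))} (h : Z.Iso Z') (j : ZMod n) :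
    (Z.part d j).Iso (Z'.part d j) := by
  obtain ⟨e, he⟩ := h
  refine ⟨e.ofSubmodules (eig d Z.cyc j) (eig d Z'.cyc j) ?_, fun g x => Subtype.ext (he g x)⟩
  ext y
  constructor
  · rintro ⟨x, hx, rfl⟩ c
    have := congrArg e (hx c)
    rwa [FRep.cyc_apply, he, map_smul] at this
  · intro hy
    refine ⟨e.symm y, fun c => e.injective ?_, by simp⟩
    rw [FRep.cyc_apply, he, map_smul, e.apply_symm_apply]
    exact hy c

theorem FRep.part_sum (Z Z' : FRep R (G × Multiplicative (ZMod n))) (j : ZMod n) :
    ((Z.sum Z').part d j).Iso ((Z.part d j).sum (Z'.part d j)) :=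
  ⟨{ toFun := fun x => (⟨x.1.1, fun c => congrArg Prod.fst (x.2 c)⟩,
        ⟨x.1.2, fun c => congrArg Prod.snd (x.2 c)⟩)
     map_add' := fun _ _ => rfl
     map_smul' := fun _ _ => rfl
     invFun := fun y => ⟨(y.1.1, y.2.1), fun c => Prod.ext (y.1.2 c) (y.2.2 c)⟩
     left_inv := fun _ => rfl
     right_inv := fun _ => rfl }, fun _ _ => rfl⟩

variable {B : Type w} [CommRing B] (ι : RepRing R G →+* B) (ω : AddChar (ZMod n) B)

/-- The trace of the generator of the cyclic factor, as an additive map. -/
noncomputable def tauAdd : RepRing R (G × Multiplicative (ZMod n)) →+ B :=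
  liftAdd (fun Z => ∑ j, ω j * ι (cl (Z.part d j).res))
    (fun Z Z' h => Finset.sum_congr rfl fun j _ => by rw [cl_congr (h.part d j).res])
    (fun Z Z' => by
      rw [← Finset.sum_add_distrib]
      refine Finset.sum_congr rfl fun j _ => ?_
      rw [cl_congr (Z.part_sum d Z' j).res, ← mul_add, ← map_add, ← cl_sum]
      rfl)

theorem tauAdd_scalar {Z : FRep R (G × Multiplicative (ZMod n))} {j : ZMod n}
    (h : Z.IsScalar d j) : tauAdd d ι ω (cl Z) = ω j * ι (cl Z.res) := by
  unfold tauAdd
  rw [liftAdd_cl, Finset.sum_eq_single j]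
  · congr 2
    refine cl_congr ⟨LinearEquiv.ofTop (eig d Z.cyc j) ?_, fun g x => rfl⟩
    exact eq_top_iff.2 fun v _ c => h c v
  · intro i _ hi
    have : Subsingleton (Z.part d i).res.V := by
      refine ⟨fun x y => Subtype.ext ?_⟩
      have key : ∀ z : eig d Z.cyc i, (z : Z.V) = 0 := by
        intro z
        have h1 := eproj_of_mem d Z.cyc z.2 j
        have h2 := eproj_of_mem d Z.cyc (i := j) (v := z) (fun c => h c z) j
        rw [if_neg hi] at h1
        rw [if_pos rfl] at h2
        rw [← h2, h1]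
      rw [key x, key y]
    rw [cl_of_subsingleton, map_zero, mul_zero]
  · intro h
    exact absurd (Finset.mem_univ _) h

theorem FRep.IsScalar.tensor {Z Z' : FRep R (G × Multiplicative (ZMod n))} {i j : ZMod n}
    (h : Z.IsScalar d i) (h' : Z'.IsScalar d j) : (Z.tensor Z').IsScalar d (i + j) := by
  intro c v
  change TensorProduct.map (Z.ρ _) (Z'.ρ _) v = _
  induction v using TensorProduct.induction_on with
  | zero => simp
  | tmul a b =>
    rw [TensorProduct.map_tmul, h, h', add_mul, AddChar.map_add_eq_mul, TensorProduct.smul_tmul_smul]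
  | add a b ha hb => rw [map_add, ha, hb, smul_add]

theorem FRep.IsScalar.extp {Z : FRep R (G × Multiplicative (ZMod n))} {j : ZMod n}
    (h : Z.IsScalar d j) (k : ℕ) : (Z.extp k).IsScalar d (k * j) := by
  intro c v
  have : exteriorPower.map k (Z.ρ (1, Multiplicative.ofAdd c)) =
      d.χ (k * j * c) • LinearMap.id := by
    apply exteriorPower.linearMap_ext
    ext1 m
    have h1 : (Z.ρ (1, Multiplicative.ofAdd c)) ∘ m = fun i => d.χ (j * c) • m i :=
      funext fun i => h c (m i)
    simp only [LinearMap.compAlternatingMap_apply, exteriorPower.map_apply_ιMulti, h1,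
      LinearMap.smul_apply, LinearMap.id_apply]
    have h2 := (exteriorPower.ιMulti R k (M := Z.V)).toMultilinearMap.map_smul_univ
      (fun _ => d.χ (j * c)) m
    simp only [AlternatingMap.coe_multilinearMap, Finset.prod_const, Finset.card_univ,
      Fintype.card_fin] at h2
    rw [h2, mul_assoc, ← nsmul_eq_mul, AddChar.map_nsmul_eq_pow]
  exact congrArg (fun φ => φ v) this

/-- The trace of the generator of the cyclic factor, as a ring homomorphism. -/
noncomputable def tau : RepRing R (G × Multiplicative (ZMod n)) →+* B where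
  toFun := tauAdd d ι ω
  map_zero' := map_zero _
  map_add' := map_add _
  map_one' := by
    rw [← cl_one, tauAdd_scalar d ι ω (j := 0) (fun c v => by simp)]
    have : cl (FRep.triv R (G × Multiplicative (ZMod n))).res = 1 := cl_one
    rw [this]; simp
  map_mul' := map_mul_of_cl _ (fun Z Z' => by
    rw [cl_tensor, cl_eq_sum_eigen d Z Z.cyc Z.cyc_comm, cl_eq_sum_eigen d Z' Z'.cyc Z'.cyc_comm,
      map_sum, map_sum, Finset.sum_mul_sum, Finset.sum_mul_sum, map_sum]
    refine Finset.sum_congr rfl fun i _ => ?_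
    rw [map_sum]
    refine Finset.sum_congr rfl fun j _ => ?_
    rw [← cl_tensor, tauAdd_scalar d ι ω ((Z.part_isScalar d i).tensor d (Z'.part_isScalar d j)),
      tauAdd_scalar d ι ω (Z.part_isScalar d i), tauAdd_scalar d ι ω (Z'.part_isScalar d j),
      AddChar.map_add_eq_mul]
    have : cl ((Z.part d i).tensor (Z'.part d j)).res =
        cl (Z.part d i).res * cl (Z'.part d j).res := by
      rw [← cl_tensor]; rfl
    rw [this, map_mul]
    ring)

theorem tau_scalar {Z : FRep R (G × Multiplicative (ZMod n))} {j : ZMod n}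
    (h : Z.IsScalar d j) : tau d ι ω (cl Z) = ω j * ι (cl Z.res) := tauAdd_scalar d ι ω h

/-- Adams series of a scalar representation. -/
theorem tau_adams_scalar {Z : FRep R (G × Multiplicative (ZMod n))} {j : ZMod n}
    (h : Z.IsScalar d j) : PowerSeries.map (tau d ι ω) (adams (cl Z)) =
      rescale (ω j) (PowerSeries.map ι (adams (cl Z.res))) := by
  have h1 : PowerSeries.map (tau d ι ω) (Lam Z) =
      rescale (ω j) (PowerSeries.map ι (Lam Z.res)) := by
    ext k
    rw [coeff_map, coeff_rescale, coeff_map, coeff_Lam, coeff_Lam, map_mul, map_mul,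
      tau_scalar d ι ω (h.extp d k), ← nsmul_eq_mul, AddChar.map_nsmul_eq_pow]
    have : cl (Z.extp k).res = cl (Z.res.extp k) := rfl
    rw [this]
    simp only [map_pow, map_neg, map_one]
    ring
  have h2 := (logD_adams Z).map (tau d ι ω)
  have h3 := ((logD_adams Z.res).map ι).rescale (ω j)
  rw [← h1] at h3
  refine LogD.unique ?_ h2 h3
  rw [← coeff_zero_eq_constantCoeff_apply, coeff_map, coeff_zero_eq_constantCoeff_apply,
    constantCoeff_Lam, map_one]
  exact isUnit_one

end Pool.Agent.Lib.MP_6995cd_al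
end
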