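import Pool.Agent.Lib.MP_6995cd_al.Eigen

-- part Pool.Agent.Lib.MP_6995cd_al.Cyclic
section

/-! Adams operations of invertible degree are multiplicative. -/

universe u v w

open TensorProduct PowerSeries

namespace Pool.Agent.Lib.MP_6995cd_al

variable {n : ℕ} [NeZero n]

section linear

variable {R : Type u} [CommRing R] {M : Type u} [AddCommGroup M] [Module R M]

/-- Pure wedges in the top multidegree exterior power. -/
noncomputable def pw (c : Fin n → ZMod n) (m : Fin n → M) : ⋀[R]^n (ZMod n → M) :=
  exteriorPower.ιMulti R n (fun k => Pi.single (c k) (m k))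

theorem pw_ext {N : Type u} [AddCommGroup N] [Module R N] {f g : ⋀[R]^n (ZMod n → M) →ₗ[R] N}
    (h : ∀ c m, f (pw c m) = g (pw c m)) : f = g := by
  have hs : Submodule.span R {v : ZMod n → M | ∃ i m, v = Pi.single i m} = ⊤ := by
    refine eq_top_iff.2 fun v _ => ?_
    rw [← Finset.univ_sum_single v]
    exact Submodule.sum_mem _ fun i _ => Submodule.subset_span ⟨i, v i, rfl⟩
  refine LinearMap.ext_on (exteriorPower.ιMulti_span_of_span R n _ hs) ?_
  rintro _ ⟨a, ha, rfl⟩
  have : ∀ k, ∃ i m, a k = Pi.single i m := fun k => ha ⟨k, rfl⟩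
  choose c m hcm using this
  have : a = fun k => Pi.single (c k) (m k) := funext hcm
  rw [this]
  exact h c m

theorem pw_perm (c : Fin n → ZMod n) (m : Fin n → M) (π : Equiv.Perm (Fin n)) :
    (pw (c ∘ π) (m ∘ π) : ⋀[R]^n (ZMod n → M)) =
      (Int.cast ((Equiv.Perm.sign π : ℤˣ) : ℤ) : R) • pw c m := by
  have := (exteriorPower.ιMulti R n (M := ZMod n → M)).map_perm
    (fun k => Pi.single (c k) (m k)) π
  exact (this.trans (Units.smul_def _ _)).trans (Int.cast_smul_eq_zsmul R _ _).symm

variable (R M) in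
/-- Kill the `i`-th coordinate. -/
def killCoord (i : ZMod n) : (ZMod n → M) →ₗ[R] (ZMod n → M) :=
  LinearMap.id - LinearMap.single R (fun _ => M) i ∘ₗ LinearMap.proj i

theorem map_killCoord_pw (i : ZMod n) (c : Fin n → ZMod n) (m : Fin n → M) :
    exteriorPower.map n (killCoord R M i) (pw c m) =
      if i ∈ Finset.univ.image c then 0 else pw c m := by
  rw [pw, exteriorPower.map_apply_ιMulti]
  split_ifs with hi
  · obtain ⟨k, -, hk⟩ := Finset.mem_image.1 hi
    refine AlternatingMap.map_coord_zero _ k ?_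
    simp [killCoord, hk]
  · congr 1
    funext k
    have : i ≠ c k := fun h => hi (Finset.mem_image.2 ⟨k, Finset.mem_univ _, h.symm⟩)
    simp [killCoord, Pi.single_eq_of_ne this]

variable (R M) in
/-- Operator acting on pure wedges by the product of the weights over the support. -/
noncomputable def suppOp (a : ZMod n → R) : Module.End R (⋀[R]^n (ZMod n → M)) :=
  (Finset.univ.toList.map fun i => exteriorPower.map n (killCoord R M i) +
    a i • (1 - exteriorPower.map n (killCoord R M i))).prod

theorem suppOp_pw (a : ZMod n → R) (c : Fin n → ZMod n) (m : Fin n → M) :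
    suppOp R M a (pw c m) = (∏ i ∈ Finset.univ.image c, a i) • pw c m := by
  have key : ∀ l : List (ZMod n), (l.map fun i => exteriorPower.map n (killCoord R M i) +
      a i • (1 - exteriorPower.map n (killCoord R M i))).prod (pw c m) =
      (l.map fun i => if i ∈ Finset.univ.image c then a i else 1).prod • pw c m := by
    intro l
    induction l with
    | nil => simp
    | cons i l ih =>
      rw [List.map_cons, List.prod_cons, Module.End.mul_apply, ih, map_smul, List.map_cons,
        List.prod_cons, mul_comm, mul_smul]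
      congr 1
      rw [LinearMap.add_apply, LinearMap.smul_apply, LinearMap.sub_apply, map_killCoord_pw,
        Module.End.one_apply]
      split_ifs <;> simp
  rw [suppOp, key, Finset.prod_map_toList, Finset.prod_ite_mem, Finset.univ_inter]

variable (R M) in
/-- The embedding of the tensor power in the exterior power. -/
noncomputable def embT (e : Fin n ≃ ZMod n) : (⨂[R] _ : Fin n, M) →ₗ[R] ⋀[R]^n (ZMod n → M) :=
  PiTensorProduct.lift ((exteriorPower.ιMulti R n (M := ZMod n → M)).toMultilinearMap.compLinearMap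
    fun k => LinearMap.single R (fun _ => M) (e k))

theorem embT_tprod (e : Fin n ≃ ZMod n) (m : Fin n → M) :
    embT R M e (PiTensorProduct.tprod R m) = pw e m := by
  simp [embT, pw]

theorem embT_injective (e : Fin n ≃ ZMod n) : Function.Injective (embT R M e) := by
  let b : ⋀[R]^n (ZMod n → M) →ₗ[R] (⨂[R] _ : Fin n, M) :=
    exteriorPower.alternatingMapLinearEquiv (MultilinearMap.alternatization
      ((PiTensorProduct.tprod R (s := fun _ : Fin n => M)).compLinearMap
        fun k => LinearMap.proj (R := R) (φ := fun _ : ZMod n => M) (e k)))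
  have hb : b ∘ₗ embT R M e = LinearMap.id := by
    apply PiTensorProduct.ext
    ext m
    simp only [LinearMap.compMultilinearMap_apply, LinearMap.comp_apply, embT_tprod, pw, b,
      exteriorPower.alternatingMapLinearEquiv_apply_ιMulti, MultilinearMap.alternatization_apply,
      LinearMap.id_apply]
    rw [Finset.sum_eq_single 1]
    · simp [MultilinearMap.domDomCongr_apply]
    · intro σ _ hσ
      obtain ⟨k, hk⟩ : ∃ k, σ k ≠ k := by
        by_contra h
        push Not at h
        exact hσ (Equiv.ext h)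
      rw [MultilinearMap.domDomCongr_apply, MultilinearMap.compLinearMap_apply,
        MultilinearMap.map_coord_zero _ k]
      · exact smul_zero (A := ⨂[R] _ : Fin n, M) (Equiv.Perm.sign σ)
      have : e k ≠ e (σ k) := fun h => hk (e.injective h).symm
      simp [Pi.single_eq_of_ne this]
    · intro h
      exact absurd (Finset.mem_univ _) h
  exact Function.LeftInverse.injective (g := b) fun x => congrArg (fun φ => φ x) hb

variable (R) in
/-- Tensor powers are multiplicative. -/
noncomputable def tpowMul (M N : Type u) [AddCommGroup M] [Module R M] [AddCommGroup N]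
    [Module R N] : (⨂[R] _ : Fin n, M) ⊗[R] (⨂[R] _ : Fin n, N) →ₗ[R] (⨂[R] _ : Fin n, M ⊗[R] N) :=
  TensorProduct.lift (PiTensorProduct.map₂ fun _ => TensorProduct.mk R M N)

theorem tpowMul_tprod {N : Type u} [AddCommGroup N] [Module R N] (m : Fin n → M) (m' : Fin n → N) :
    tpowMul R M N (PiTensorProduct.tprod R m ⊗ₜ PiTensorProduct.tprod R m') =
      PiTensorProduct.tprod R fun k => m k ⊗ₜ[R] m' k := by
  simp [tpowMul, PiTensorProduct.map₂_tprod_tprod]

theorem tpowMul_bijective {N : Type u} [AddCommGroup N] [Module R N] [Module.Free R M]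
    [Module.Free R N] : Function.Bijective (tpowMul (n := n) R M N) := by
  let b := Module.Free.chooseBasis R M
  let b' := Module.Free.chooseBasis R N
  let b1 := (Basis.piTensorProduct fun _ : Fin n => b).tensorProduct
    (Basis.piTensorProduct fun _ : Fin n => b')
  let b2 := Basis.piTensorProduct fun _ : Fin n => b.tensorProduct b'
  have : tpowMul (n := n) R M N =
      (b1.equiv b2 (Equiv.arrowProdEquivProdArrow _ _ _).symm).toLinearMap := by
    refine b1.ext ?_
    rintro ⟨p, q⟩
    rw [LinearEquiv.coe_coe, Module.Basis.equiv_apply]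
    simp [b1, b2, tpowMul_tprod]
  rw [this]
  exact LinearEquiv.bijective _

end linear

variable {R : Type u} [CommRing R] {G : Type v} [Monoid G]

/-- The representation induced from the first factor. -/
noncomputable abbrev FRep.reg (M : FRep R G) (n : ℕ) [NeZero n] :
    FRep R (G × Multiplicative (ZMod n)) where
  V := ZMod n → M.V
  ρ :=
    { toFun := fun g => LinearMap.pi fun i => M.ρ g.1 ∘ₗ LinearMap.proj (i - g.2.toAdd)
      map_one' := by ext; simp
      map_mul' := fun g h => by ext; simp [sub_sub] }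

theorem FRep.reg_apply (M : FRep R G) (g : G × Multiplicative (ZMod n)) (v : ZMod n → M.V)
    (i : ZMod n) : (M.reg n).ρ g v i = M.ρ g.1 (v (i - g.2.toAdd)) := rfl

theorem FRep.reg_single (M : FRep R G) (g : G × Multiplicative (ZMod n)) (i : ZMod n) (m : M.V) :
    (M.reg n).ρ g (Pi.single i m) = Pi.single (i + g.2.toAdd) (M.ρ g.1 m) := by
  funext j
  rw [FRep.reg_apply]
  by_cases h : j = i + g.2.toAdd
  · subst h; simp
  · rw [Pi.single_eq_of_ne h, Pi.single_eq_of_ne (fun h' => h (by rw [← h']; ring)), map_zero]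

theorem FRep.extp_reg_pw (M : FRep R G) (g : G × Multiplicative (ZMod n)) (c : Fin n → ZMod n)
    (m : Fin n → M.V) : ((M.reg n).extp n).ρ g (pw c m) =
      pw (fun k => c k + g.2.toAdd) (fun k => M.ρ g.1 (m k)) := by
  change exteriorPower.map n ((M.reg n).ρ g) (pw c m) = _
  rw [pw, exteriorPower.map_apply_ιMulti, pw]
  congr 1
  funext k
  exact M.reg_single g _ _

/-- The cyclic shift of the tensor factors. -/
def shiftPerm (e : Fin n ≃ ZMod n) : Multiplicative (ZMod n) →* Equiv.Perm (Fin n) where
  toFun c := (e.trans (Equiv.addRight c.toAdd)).trans e.symm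
  map_one' := by ext; simp
  map_mul' c c' := by ext k; simp [add_assoc, add_comm c.toAdd]

theorem shiftPerm_apply (e : Fin n ≃ ZMod n) (c : Multiplicative (ZMod n)) (k : Fin n) :
    e (shiftPerm e c k) = e k + c.toAdd := by
  simp [shiftPerm]

/-- The cyclic tensor power. -/
noncomputable abbrev FRep.tpow (M : FRep R G) (e : Fin n ≃ ZMod n) :
    FRep R (G × Multiplicative (ZMod n)) where
  V := ⨂[R] _ : Fin n, M.V
  free := Module.Free.of_basis
    (Basis.piTensorProduct fun _ : Fin n => Module.Free.chooseBasis R M.V)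
  ρ :=
    { toFun := fun g => PiTensorProduct.lift
        (((PiTensorProduct.tprod R (s := fun _ : Fin n => M.V)).compLinearMap fun _ => M.ρ g.1).domDomCongr
          (shiftPerm e g.2).symm)
      map_one' := by
        apply PiTensorProduct.ext
        ext m
        simp [← Equiv.Perm.inv_def]
      map_mul' := fun g h => by
        apply PiTensorProduct.ext
        ext m
        simp only [LinearMap.compMultilinearMap_apply, PiTensorProduct.lift.tprod,
          MultilinearMap.domDomCongr_apply, MultilinearMap.compLinearMap_apply,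
          Module.End.mul_apply, Prod.fst_mul, Prod.snd_mul, map_mul, ← Equiv.Perm.inv_def,
          mul_inv_rev, Equiv.Perm.mul_apply] }

theorem FRep.tpow_tprod (M : FRep R G) (e : Fin n ≃ ZMod n) (g : G × Multiplicative (ZMod n))
    (m : Fin n → M.V) : (M.tpow e).ρ g (PiTensorProduct.tprod R m) =
      PiTensorProduct.tprod R fun k => M.ρ g.1 (m ((shiftPerm e g.2).symm k)) := by
  change PiTensorProduct.lift _ (PiTensorProduct.tprod R m) = _
  simp

theorem cl_tpow_tensor (M N : FRep R G) (e : Fin n ≃ ZMod n) :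
    cl ((M.tensor N).tpow e) = cl (M.tpow e) * cl (N.tpow e) := by
  rw [← cl_tensor]
  symm
  refine cl_congr ⟨LinearEquiv.ofBijective (tpowMul R M.V N.V) tpowMul_bijective, fun g x => ?_⟩
  have : tpowMul R M.V N.V ∘ₗ TensorProduct.map ((M.tpow e).ρ g) ((N.tpow e).ρ g) =
      ((M.tensor N).tpow e).ρ g ∘ₗ tpowMul R M.V N.V := by
    apply TensorProduct.ext
    apply PiTensorProduct.ext
    ext1 m
    apply PiTensorProduct.ext
    ext1 m'
    simp only [LinearMap.compMultilinearMap_apply, LinearMap.compr₂ₛₗ_apply,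
      TensorProduct.mk_apply, LinearMap.comp_apply, TensorProduct.map_tmul]
    rw [M.tpow_tprod, N.tpow_tprod, tpowMul_tprod, tpowMul_tprod, (M.tensor N).tpow_tprod]
    rfl
  exact congrArg (fun φ => φ x) this

variable [IsLocalRing R] (d : CycData R n)

theorem res_part_reg (M : FRep R G) (j : ZMod n) : ((M.reg n).part d j).res.Iso M := by
  refine FRep.Iso.symm ⟨
    { toFun := fun m => ⟨fun i => d.χ (-(j * i)) • m, fun c => funext fun i => ?_⟩
      map_add' := fun a b => Subtype.ext (funext fun i => smul_add _ _ _)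
      map_smul' := fun r a => Subtype.ext (funext fun i => smul_comm _ _ _)
      invFun := fun v => v.1 0
      left_inv := fun m => by simp
      right_inv := fun v => Subtype.ext (funext fun i => ?_) }, fun g x => ?_⟩
  · rw [FRep.cyc_apply, FRep.reg_apply]
    simp only [map_one, toAdd_ofAdd, Module.End.one_apply, Pi.smul_apply, smul_smul,
      ← AddChar.map_add_eq_mul]
    congr 2
    ring
  · have := congrFun (v.2 (-i)) 0
    rw [FRep.cyc_apply, FRep.reg_apply] at this
    simp only [map_one, toAdd_ofAdd, Module.End.one_apply, Pi.smul_apply, zero_sub, neg_neg,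
      mul_neg] at this
    exact this.symm
  · refine Subtype.ext (funext fun i => ?_)
    change d.χ (-(j * i)) • M.ρ g x = M.ρ g (d.χ (-(j * (i - 0))) • x)
    rw [map_smul, sub_zero]

variable {B : Type w} [CommRing B] (ι : RepRing R G →+* B) {ω : AddChar (ZMod n) B}

theorem tau_extp_reg (hω : GoodChar ω) (hn : IsUnit (n : B)) (M : FRep R G) :
    ι (psi n (cl M)) = (-1) ^ (n + 1) * tau d ι ω (cl ((M.reg n).extp n)) := by
  have h1 : ∀ k, coeff k (PowerSeries.map (tau d ι ω) (adams (cl (M.reg n)))) =
      (if (k : ZMod n) = 0 then (n : B) else 0) * ι (psi k (cl M)) := by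
    intro k
    rw [cl_eq_sum_eigen d (M.reg n) (M.reg n).cyc (M.reg n).cyc_comm, map_sum, map_sum, map_sum,
      ← hω.sum_eq, Finset.sum_mul]
    refine Finset.sum_congr rfl fun j _ => ?_
    rw [tau_adams_scalar d ι ω ((M.reg n).part_isScalar d j), cl_congr (res_part_reg d M j),
      coeff_rescale, coeff_map, psi_apply, ← nsmul_eq_mul, AddChar.map_nsmul_eq_pow]
  have h2 := ((logD_adams (M.reg n)).map (tau d ι ω)).coeff_of_vanish (by
    rw [← coeff_zero_eq_constantCoeff_apply, coeff_map, coeff_zero_eq_constantCoeff_apply,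
      constantCoeff_Lam, map_one]) n (by
    intro k hk hkn
    rw [h1, if_neg, zero_mul]
    rw [ZMod.natCast_eq_zero_iff]
    exact Nat.not_dvd_of_pos_of_lt hk hkn)
  rw [h1, if_pos (ZMod.natCast_self n), coeff_map, coeff_Lam, map_mul, map_pow, map_neg,
    map_one] at h2
  refine hn.mul_left_cancel ?_
  rw [h2]
  ring

/-- The character of the cyclic factor. -/
def CycData.chi (d : CycData R n) (G : Type v) [Monoid G] (k : ZMod n) :
    G × Multiplicative (ZMod n) →* R where
  toFun g := d.χ (k * g.2.toAdd)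
  map_one' := by simp
  map_mul' g h := by simp [mul_add, AddChar.map_add_eq_mul]

theorem tau_chi (k : ZMod n) : tau d ι ω (cl (FRep.char (d.chi G k))) = ω k := by
  rw [tau_scalar d ι ω (j := k) (fun c v => rfl)]
  have : cl (FRep.char (d.chi G k)).res = 1 := by
    rw [← cl_one]
    exact cl_congr ⟨LinearEquiv.refl R R, fun g x => by simp [CycData.chi]⟩
  rw [this, map_one, mul_one]

/-- The support-size action. -/
noncomputable def suppAct (M : Type u) [AddCommGroup M] [Module R M] :
    AddChar (ZMod n) (Module.End R (⋀[R]^n (ZMod n → M))) where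
  toFun c := suppOp R M fun _ => d.χ c
  map_zero_eq_one' := pw_ext fun c m => by simp [suppOp_pw]
  map_add_eq_mul' a b := pw_ext fun c m => by
    rw [Module.End.mul_apply, suppOp_pw, suppOp_pw, map_smul, suppOp_pw, smul_smul,
      ← Finset.prod_mul_distrib]
    simp only [AddChar.map_add_eq_mul, mul_comm]

theorem suppAct_pw {M : Type u} [AddCommGroup M] [Module R M] (a : ZMod n) (c : Fin n → ZMod n)
    (m : Fin n → M) : suppAct d M a (pw c m) =
      d.χ (((Finset.univ.image c).card : ZMod n) * a) • pw c m := by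
  change suppOp R M (fun _ => d.χ a) (pw c m) = _
  rw [suppOp_pw, Finset.prod_const, ← nsmul_eq_mul, AddChar.map_nsmul_eq_pow]

theorem image_add_const (c : Fin n → ZMod n) (a : ZMod n) :
    Finset.univ.image (fun k => c k + a) = (Finset.univ.image c).image (· + a) := by
  rw [Finset.image_image]; rfl

theorem suppAct_comm (M : FRep R G) (g : G × Multiplicative (ZMod n)) (a : ZMod n)
    (v : ((M.reg n).extp n).V) :
    suppAct d M.V a (((M.reg n).extp n).ρ g v) = ((M.reg n).extp n).ρ g (suppAct d M.V a v) := by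
  have : suppAct d M.V a ∘ₗ ((M.reg n).extp n).ρ g = ((M.reg n).extp n).ρ g ∘ₗ suppAct d M.V a := by
    refine pw_ext fun c m => ?_
    rw [LinearMap.comp_apply, LinearMap.comp_apply, FRep.extp_reg_pw, suppAct_pw, suppAct_pw,
      map_smul, FRep.extp_reg_pw, image_add_const,
      Finset.card_image_of_injective _ (add_left_injective _)]
  exact congrArg (fun φ => φ v) this

theorem tau_eigen_eq_zero (hω : GoodChar ω) (M : FRep R G) {k : ZMod n} (hk : k ≠ 0) :
    tau d ι ω (cl (((M.reg n).extp n).eigen d (suppAct d M.V) (suppAct_comm d M) k)) = 0 := by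
  set Z := ((M.reg n).extp n).eigen d (suppAct d M.V) (suppAct_comm d M) k with hZ
  let U : (⋀[R]^n (ZMod n → M.V)) ≃ₗ[R] (⋀[R]^n (ZMod n → M.V)) :=
    LinearEquiv.ofLinearMap (suppOp R M.V fun i => d.χ i) (suppOp R M.V fun i => d.χ (-i))
      (pw_ext fun c m => by
        rw [LinearMap.comp_apply, suppOp_pw, map_smul, suppOp_pw, smul_smul,
          ← Finset.prod_mul_distrib]
        simp [← AddChar.map_add_eq_mul])
      (pw_ext fun c m => by
        rw [LinearMap.comp_apply, suppOp_pw, map_smul, suppOp_pw, smul_smul,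
          ← Finset.prod_mul_distrib]
        simp [← AddChar.map_add_eq_mul])
  have hU : ∀ v, U v = suppOp R M.V (fun i => d.χ i) v := fun v => rfl
  have hUs : ∀ a v, U (suppAct d M.V a v) = suppAct d M.V a (U v) := by
    intro a v
    have : suppOp R M.V (fun i => d.χ i) ∘ₗ suppAct d M.V a =
        suppAct d M.V a ∘ₗ suppOp R M.V (fun i => d.χ i) := by
      refine pw_ext fun c m => ?_
      rw [LinearMap.comp_apply, LinearMap.comp_apply, suppAct_pw, suppOp_pw, map_smul, map_smul,
        suppAct_pw, suppOp_pw, smul_comm]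
    exact congrArg (fun φ => φ v) this
  have hUρ : ∀ (g : G × Multiplicative (ZMod n)) v, U (((M.reg n).extp n).ρ g v) =
      ((M.reg n).extp n).ρ g (suppAct d M.V g.2.toAdd (U v)) := by
    intro g v
    have : suppOp R M.V (fun i => d.χ i) ∘ₗ ((M.reg n).extp n).ρ g =
        ((M.reg n).extp n).ρ g ∘ₗ suppAct d M.V g.2.toAdd ∘ₗ suppOp R M.V (fun i => d.χ i) := by
      refine pw_ext fun c m => ?_
      rw [LinearMap.comp_apply, LinearMap.comp_apply, LinearMap.comp_apply, FRep.extp_reg_pw,
        suppOp_pw, suppOp_pw, map_smul, suppAct_pw, map_smul, map_smul, FRep.extp_reg_pw,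
        smul_smul, image_add_const, Finset.prod_image (add_left_injective _).injOn]
      simp only [AddChar.map_add_eq_mul, Finset.prod_mul_distrib, Finset.prod_const]
      rw [← nsmul_eq_mul, AddChar.map_nsmul_eq_pow]
    exact congrArg (fun φ => φ v) this
  have hmap : (eig d (suppAct d M.V) k).map U.toLinearMap = eig d (suppAct d M.V) k := by
    ext y
    constructor
    · rintro ⟨x, hx, rfl⟩ c
      rw [LinearEquiv.coe_coe, ← hUs, hx c, map_smul]
    · intro hy
      refine ⟨U.symm y, fun c => U.injective ?_, by simp⟩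
      rw [hUs, map_smul, U.apply_symm_apply]
      exact hy c
  have h1 : cl Z = cl (FRep.char (d.chi G k)) * cl Z := by
    refine cl_twist (d.chi G k) (U.ofSubmodules _ _ hmap) fun g x => Subtype.ext ?_
    change U (((M.reg n).extp n).ρ g x.1) = d.χ (k * g.2.toAdd) • ((M.reg n).extp n).ρ g (U x.1)
    rw [hUρ, ← hUs, x.2, map_smul, map_smul]
  have h2 := congrArg (tau d ι ω) h1
  rw [map_mul, tau_chi] at h2
  refine ((hω k hk).mul_right_eq_zero).1 ?_
  rw [sub_mul, ← h2, one_mul, sub_self]

/-- The sign character of the cyclic shift. -/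
def shiftSign (R : Type u) [CommRing R] (G : Type v) [Monoid G] (e : Fin n ≃ ZMod n) :
    G × Multiplicative (ZMod n) →* R :=
  (Int.castRingHom R).toMonoidHom.comp ((Units.coeHom ℤ).comp (Equiv.Perm.sign.comp
    ((shiftPerm e).comp (MonoidHom.snd G _))))

theorem cl_eigen_zero (M : FRep R G) (e : Fin n ≃ ZMod n) :
    cl (((M.reg n).extp n).eigen d (suppAct d M.V) (suppAct_comm d M) 0) =
      cl (FRep.char (shiftSign R G e)) * cl (M.tpow e) := by
  have hmem : ∀ x, embT R M.V e x ∈ eig d (suppAct d M.V) 0 := by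
    intro x a
    have : suppAct d M.V a ∘ₗ embT R M.V e = embT R M.V e := by
      apply PiTensorProduct.ext
      ext1 m
      simp only [LinearMap.compMultilinearMap_apply, LinearMap.comp_apply, embT_tprod, suppAct_pw]
      rw [Finset.card_image_of_injective _ e.injective]
      simp
    simpa using congrArg (fun φ => φ x) this
  have hsurj : ∀ y ∈ eig d (suppAct d M.V) 0, ∃ x, embT R M.V e x = y := by
    intro y hy
    have h0 : (LinearMap.range (embT R M.V e)).mkQ ∘ₗ eproj d (suppAct d M.V) 0 = 0 := by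
      refine pw_ext fun c m => ?_
      rw [LinearMap.comp_apply, eproj_of_mem d (suppAct d M.V)
        (i := ((Finset.univ.image c).card : ZMod n)) (fun a => suppAct_pw d a c m)]
      split_ifs with hc
      · rw [ZMod.natCast_eq_zero_iff] at hc
        have hpos : 0 < (Finset.univ.image c).card :=
          Finset.card_pos.2 (Finset.univ_nonempty.image _)
        have hle : (Finset.univ.image c).card ≤ n := by
          simpa using Finset.card_image_le (s := Finset.univ) (f := c)
        have hcard : (Finset.univ.image c).card = (Finset.univ : Finset (Fin n)).card := by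
          rw [Finset.card_univ, Fintype.card_fin]
          exact le_antisymm hle (Nat.le_of_dvd hpos hc)
        have hinj : Function.Injective c := by
          have := Finset.card_image_iff.1 hcard
          simpa using this
        let π : Equiv.Perm (Fin n) := Equiv.ofBijective (e.symm ∘ c)
          (Finite.injective_iff_bijective.1 (e.symm.injective.comp hinj))
        have h1 : c = e ∘ π := by funext k; simp [π]
        have h2 : m = (m ∘ π.symm) ∘ π := by funext k; simp
        rw [LinearMap.zero_apply, Submodule.mkQ_apply, Submodule.Quotient.mk_eq_zero, h1, h2,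
          pw_perm, ← embT_tprod]
        exact Submodule.smul_mem _ _ (LinearMap.mem_range_self _ _)
      · simp
    have h1 := congrArg (fun φ => φ y) h0
    simp only [LinearMap.comp_apply, eproj_of_mem d _ hy, if_true, LinearMap.zero_apply,
      Submodule.mkQ_apply, Submodule.Quotient.mk_eq_zero] at h1
    exact h1
  let A : (⨂[R] _ : Fin n, M.V) ≃ₗ[R] eig d (suppAct d M.V) 0 :=
    LinearEquiv.ofBijective (LinearMap.codRestrict _ (embT R M.V e) hmem)
      ⟨fun x y h => embT_injective e (congrArg Subtype.val h), fun y => by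
        obtain ⟨x, hx⟩ := hsurj y.1 y.2
        exact ⟨x, Subtype.ext hx⟩⟩
  refine cl_twist (shiftSign R G e) A.symm fun g y => ?_
  obtain ⟨x, rfl⟩ := A.surjective y
  rw [LinearEquiv.symm_apply_eq, A.symm_apply_apply]
  refine Subtype.ext ?_
  change ((M.reg n).extp n).ρ g (embT R M.V e x) =
    embT R M.V e (shiftSign R G e g • (M.tpow e).ρ g x)
  have : ((M.reg n).extp n).ρ g ∘ₗ embT R M.V e =
      shiftSign R G e g • (embT R M.V e ∘ₗ (M.tpow e).ρ g) := by
    apply PiTensorProduct.ext
    ext1 m
    simp only [LinearMap.compMultilinearMap_apply, LinearMap.comp_apply, embT_tprod,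
      LinearMap.smul_apply]
    rw [FRep.extp_reg_pw, FRep.tpow_tprod, embT_tprod]
    have := pw_perm (R := R) e (fun k => M.ρ g.1 (m ((shiftPerm e g.2).symm k))) (shiftPerm e g.2)
    refine Eq.trans ?_ this
    congr 1
    · funext k; simp [shiftPerm_apply]
    · funext k
      exact congrArg (fun z => M.ρ g.1 (m z)) (Equiv.symm_apply_apply (shiftPerm e g.2) k).symm
  rw [map_smul]
  exact congrArg (fun φ => φ x) this

theorem psi_eq_tau_tpow (hω : GoodChar ω) (hn : IsUnit (n : B)) (e : Fin n ≃ ZMod n)
    (M : FRep R G) : ι (psi n (cl M)) =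
      (-1) ^ (n + 1) * tau d ι ω (cl (FRep.char (shiftSign R G e))) * tau d ι ω (cl (M.tpow e)) := by
  rw [tau_extp_reg d ι hω hn, cl_eq_sum_eigen d _ (suppAct d M.V) (suppAct_comm d M), map_sum,
    Finset.sum_eq_single 0, cl_eigen_zero d M e, map_mul, mul_assoc]
  · intro k _ hk
    exact tau_eigen_eq_zero d ι hω M hk
  · intro h
    exact absurd (Finset.mem_univ _) h

include d in
theorem psi_mul (hω : GoodChar ω) (hn : IsUnit (n : B)) (x y : RepRing R G) :
    ι (psi n (x * y)) = ι (psi n x) * ι (psi n y) := by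
  let e : Fin n ≃ ZMod n := (ZMod.finEquiv n).toEquiv
  have key := psi_eq_tau_tpow d ι hω hn e
  set κ := (-1) ^ (n + 1) * tau d ι ω (cl (FRep.char (shiftSign R G e)))
  have h1 := key (FRep.triv R G)
  have h2 := key ((FRep.triv R G).tensor (FRep.triv R G))
  rw [cl_tensor, cl_tpow_tensor, map_mul (tau d ι ω), ← mul_assoc, ← h1] at h2
  rw [cl_one, psi_map_one (NeZero.ne n), map_one] at h1
  rw [cl_one, mul_one, psi_map_one (NeZero.ne n), map_one, one_mul] at h2
  rw [← h2, mul_one] at h1
  refine map_mul_of_cl (ι.toAddMonoidHom.comp (psi n)) (fun M N => ?_) x y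
  change ι (psi n _) = ι (psi n _) * ι (psi n _)
  rw [key, key, key, ← h1, cl_tpow_tensor, map_mul, one_mul, one_mul, one_mul]

end Pool.Agent.Lib.MP_6995cd_al
end

-- part Pool.Agent.Lib.MP_6995cd_al.Count
section

/-! Counting homomorphisms separates finite modules. -/

universe u v w

open TensorProduct

namespace Pool.Agent.Lib.MP_6995cd_al

section lovasz

variable {S : Type w} [Ring S]

theorem card_hom_eq_sum (X M : Type u) [AddCommGroup X] [Module S X] [Finite X] [AddCommGroup M]
    [Module S M] [Finite M] [Fintype (Submodule S X)] :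
    Nat.card (X →ₗ[S] M) =
      ∑ K : Submodule S X, Nat.card {g : (X ⧸ K) →ₗ[S] M // Function.Injective g} := by
  haveI : ∀ K : Submodule S X, Finite ((X ⧸ K) →ₗ[S] M) := fun K =>
    haveI : Finite (X ⧸ K) := Finite.of_surjective _ K.mkQ_surjective
    Finite.of_injective _ DFunLike.coe_injective
  rw [← Nat.card_sigma]
  refine Nat.card_congr ((Equiv.sigmaFiberEquiv (fun f : X →ₗ[S] M => LinearMap.ker f)).symm.trans
    (Equiv.sigmaCongrRight fun K => ?_))
  exact
    { toFun := fun f => ⟨K.liftQ f.1 f.2.ge,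
        LinearMap.ker_eq_bot.1 (Submodule.ker_liftQ_eq_bot _ _ _ f.2.le)⟩
      invFun := fun g => ⟨g.1 ∘ₗ K.mkQ, by
        rw [LinearMap.ker_comp, LinearMap.ker_eq_bot.2 g.2, Submodule.comap_bot,
          Submodule.ker_mkQ]⟩
      left_inv := fun f => Subtype.ext (Submodule.liftQ_mkQ _ _ _)
      right_inv := fun g => Subtype.ext (Submodule.linearMap_qext _ (Submodule.liftQ_mkQ _ _ _)) }

theorem card_inj_congr {X Y : Type u} (M : Type u) [AddCommGroup X] [Module S X] [AddCommGroup Y]
    [Module S Y] [AddCommGroup M] [Module S M] (e : X ≃ₗ[S] Y) :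
    Nat.card {g : X →ₗ[S] M // Function.Injective g} =
      Nat.card {g : Y →ₗ[S] M // Function.Injective g} :=
  Nat.card_congr
    { toFun := fun g => ⟨g.1 ∘ₗ e.symm.toLinearMap, g.2.comp e.symm.injective⟩
      invFun := fun g => ⟨g.1 ∘ₗ e.toLinearMap, g.2.comp e.injective⟩
      left_inv := fun g => Subtype.ext (by ext; simp)
      right_inv := fun g => Subtype.ext (by ext; simp) }

theorem card_inj_eq {M N : Type u} [AddCommGroup M] [Module S M] [Finite M] [AddCommGroup N]
    [Module S N] [Finite N]
    (h : ∀ (X : Type u) [AddCommGroup X] [Module S X] [Finite X],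
      Nat.card (X →ₗ[S] M) = Nat.card (X →ₗ[S] N)) (k : ℕ) :
    ∀ (X : Type u) [AddCommGroup X] [Module S X] [Finite X], Nat.card X = k →
      Nat.card {g : X →ₗ[S] M // Function.Injective g} =
        Nat.card {g : X →ₗ[S] N // Function.Injective g} := by
  classical
  induction k using Nat.strong_induction_on with
  | _ k ih =>
    intro X _ _ _ hX
    haveI : Finite (Submodule S X) := Finite.of_injective _ SetLike.coe_injective
    haveI := Fintype.ofFinite (Submodule S X)
    have h1 := h X
    rw [card_hom_eq_sum, card_hom_eq_sum, ← Finset.add_sum_erase _ _ (Finset.mem_univ ⊥),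
      ← Finset.add_sum_erase _ _ (Finset.mem_univ ⊥)] at h1
    have h2 : ∑ K ∈ Finset.univ.erase (⊥ : Submodule S X),
        Nat.card {g : (X ⧸ K) →ₗ[S] M // Function.Injective g} =
        ∑ K ∈ Finset.univ.erase (⊥ : Submodule S X),
        Nat.card {g : (X ⧸ K) →ₗ[S] N // Function.Injective g} := by
      refine Finset.sum_congr rfl fun K hK => ?_
      have hK' : K ≠ ⊥ := Finset.ne_of_mem_erase hK
      haveI : Finite (X ⧸ K) := Finite.of_surjective _ K.mkQ_surjective
      refine ih _ ?_ (X ⧸ K) rfl
      rw [← hX, Submodule.card_eq_card_quotient_mul_card K]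
      haveI : Nontrivial K := Submodule.nontrivial_iff_ne_bot.2 hK'
      have h3 : 1 < Nat.card K := Finite.one_lt_card
      have h4 : 0 < Nat.card (X ⧸ K) := Nat.card_pos
      nlinarith
    rw [h2, card_inj_congr M (Submodule.quotEquivOfEqBot ⊥ rfl),
      card_inj_congr N (Submodule.quotEquivOfEqBot ⊥ rfl)] at h1
    exact Nat.add_right_cancel h1

theorem equiv_of_card_hom_eq {M N : Type u} [AddCommGroup M] [Module S M] [Finite M]
    [AddCommGroup N] [Module S N] [Finite N]
    (h : ∀ (X : Type u) [AddCommGroup X] [Module S X] [Finite X],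
      Nat.card (X →ₗ[S] M) = Nat.card (X →ₗ[S] N)) : Nonempty (M ≃ₗ[S] N) := by
  haveI : Finite (M →ₗ[S] M) := Finite.of_injective _ DFunLike.coe_injective
  haveI : Finite (N →ₗ[S] N) := Finite.of_injective _ DFunLike.coe_injective
  have h1 := card_inj_eq h _ M rfl
  have h2 := card_inj_eq h _ N rfl
  haveI : Nonempty {g : M →ₗ[S] M // Function.Injective g} := ⟨⟨LinearMap.id, fun _ _ h => h⟩⟩
  haveI : Nonempty {g : N →ₗ[S] N // Function.Injective g} := ⟨⟨LinearMap.id, fun _ _ h => h⟩⟩
  have h3 : 0 < Nat.card {g : M →ₗ[S] N // Function.Injective g} := h1 ▸ Nat.card_pos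
  have h4 : 0 < Nat.card {g : N →ₗ[S] M // Function.Injective g} := h2 ▸ Nat.card_pos
  obtain ⟨f, hf⟩ := (Nat.card_pos_iff.1 h3).1
  obtain ⟨g, hg⟩ := (Nat.card_pos_iff.1 h4).1
  have h5 : Function.Bijective (f ∘ g) := Finite.injective_iff_bijective.1 (hf.comp hg)
  exact ⟨LinearEquiv.ofBijective f ⟨hf, h5.surjective.of_comp⟩⟩

end lovasz

variable {R : Type u} {G : Type v} [CommRing R] [Monoid G]

/-- An equivariant linear equivalence is linear over the monoid algebra. -/
noncomputable def asModuleEquivOf {M N : FRep R G} (e : M.V ≃ₗ[R] N.V)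
    (he : ∀ g x, e (M.ρ g x) = N.ρ g (e x)) :
    M.ρ.asModule ≃ₗ[MonoidAlgebra R G] N.ρ.asModule :=
  LinearEquiv.ofBijective (Representation.IntertwiningMap.equivLinearMapAsModule M.ρ N.ρ
    ⟨e.toLinearMap, fun g => LinearMap.ext fun x => he g x⟩) e.bijective

theorem iso_of_asModule {M N : FRep R G}
    (e : M.ρ.asModule ≃ₗ[MonoidAlgebra R G] N.ρ.asModule) : M.Iso N := by
  let f := (Representation.IntertwiningMap.equivLinearMapAsModule M.ρ N.ρ).symm e.toLinearMap
  exact ⟨LinearEquiv.ofBijective f.toLinearMap e.bijective, fun g x => f.isIntertwining _ _ g x⟩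

theorem card_hom_sum (M N : FRep R G) (X : Type u) [AddCommGroup X]
    [Module (MonoidAlgebra R G) X] :
    Nat.card (X →ₗ[MonoidAlgebra R G] (M.sum N).ρ.asModule) =
      Nat.card (X →ₗ[MonoidAlgebra R G] M.ρ.asModule) *
        Nat.card (X →ₗ[MonoidAlgebra R G] N.ρ.asModule) := by
  let p := Representation.IntertwiningMap.equivLinearMapAsModule _ _
    (Representation.IntertwiningMap.fst R M.ρ N.ρ)
  let q := Representation.IntertwiningMap.equivLinearMapAsModule _ _
    (Representation.IntertwiningMap.snd R M.ρ N.ρ)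
  let e : (M.sum N).ρ.asModule ≃ₗ[MonoidAlgebra R G] M.ρ.asModule × N.ρ.asModule :=
    LinearEquiv.ofBijective (p.prod q) Function.bijective_id
  rw [← Nat.card_prod]
  refine Nat.card_congr ?_
  exact ((LinearEquiv.refl _ X).arrowCongrAddEquiv e).toEquiv.trans
    (LinearMap.prodEquiv ℕ).toEquiv.symm

variable [Finite R]

instance FRep.finite (M : FRep R G) : Finite M.V := Module.finite_of_finite R

instance FRep.finite_asModule (M : FRep R G) : Finite M.ρ.asModule := M.finite

/-- Valuation of the number of homomorphisms from a fixed finite module. -/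
noncomputable def homVal (X : Type u) [AddCommGroup X] [Module (MonoidAlgebra R G) X] [Finite X]
    (q : ℕ) : RepRing R G →+ ℤ :=
  liftAdd (fun M => ((Nat.card (X →ₗ[MonoidAlgebra R G] M.ρ.asModule)).factorization q : ℤ))
    (fun M N ⟨e, he⟩ => by
      rw [Nat.card_congr ((LinearEquiv.refl _ X).arrowCongrAddEquiv
        (asModuleEquivOf e he)).toEquiv])
    (fun M N => by
      haveI : Finite (X →ₗ[MonoidAlgebra R G] M.ρ.asModule) :=
        Finite.of_injective _ DFunLike.coe_injective
      haveI : Finite (X →ₗ[MonoidAlgebra R G] N.ρ.asModule) :=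
        Finite.of_injective _ DFunLike.coe_injective
      rw [card_hom_sum, Nat.factorization_mul Nat.card_pos.ne' Nat.card_pos.ne']
      simp)

theorem iso_of_homVal {M N : FRep R G}
    (h : ∀ (X : Type u) [AddCommGroup X] [Module (MonoidAlgebra R G) X] [Finite X] (q : ℕ),
      homVal X q (cl M - cl N) = 0) : M.Iso N := by
  obtain ⟨e⟩ := equiv_of_card_hom_eq (S := MonoidAlgebra R G) (M := M.ρ.asModule)
    (N := N.ρ.asModule) (by
      intro X _ _ _
      haveI : Finite (X →ₗ[MonoidAlgebra R G] M.ρ.asModule) :=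
        Finite.of_injective _ DFunLike.coe_injective
      haveI : Finite (X →ₗ[MonoidAlgebra R G] N.ρ.asModule) :=
        Finite.of_injective _ DFunLike.coe_injective
      refine Nat.eq_of_factorization_eq Nat.card_pos.ne' Nat.card_pos.ne' fun q => ?_
      have := h X q
      rw [map_sub, homVal, liftAdd_cl, liftAdd_cl, sub_eq_zero] at this
      exact_mod_cast this)
  exact iso_of_asModule e

theorem iso_of_cl_eq {M N : FRep R G} (h : cl M = cl N) : M.Iso N :=
  iso_of_homVal fun X _ _ _ q => by rw [h, sub_self, map_zero]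

theorem eq_zero_of_homVal {x : RepRing R G}
    (h : ∀ (X : Type u) [AddCommGroup X] [Module (MonoidAlgebra R G) X] [Finite X] (q : ℕ),
      homVal X q x = 0) : x = 0 := by
  obtain ⟨M, N, rfl⟩ := exists_sub x
  rw [cl_congr (iso_of_homVal h), sub_self]

theorem eq_zero_of_natCast_mul {k : ℕ} (hk : 0 < k) {x : RepRing R G} (h : k * x = 0) : x = 0 := by
  refine eq_zero_of_homVal fun X _ _ _ q => ?_
  have := congrArg (homVal X q) h
  rw [← nsmul_eq_mul, map_nsmul, map_zero, nsmul_eq_mul] at this
  exact (mul_eq_zero.1 this).resolve_left (by exact_mod_cast hk.ne')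

theorem eq_zero_of_forall_pow_dvd {l : ℕ} (hl : 1 < l) (x : RepRing R G)
    (h : ∀ k : ℕ, (l : RepRing R G) ^ k ∣ x) : x = 0 := by
  refine eq_zero_of_homVal fun X _ _ _ q => ?_
  have h1 : ∀ k : ℕ, ((l ^ k : ℕ) : ℤ) ∣ homVal X q x := by
    intro k
    obtain ⟨y, hy⟩ := h k
    refine ⟨homVal X q y, ?_⟩
    rw [hy, ← Nat.cast_pow, ← nsmul_eq_mul, map_nsmul, nsmul_eq_mul]
  refine Int.eq_zero_of_abs_lt_dvd (h1 (homVal X q x).natAbs) ?_
  rw [Int.abs_eq_natAbs]
  exact_mod_cast Nat.lt_pow_self hl

end Pool.Agent.Lib.MP_6995cd_al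
end

-- part Pool.Agent.Lib.MP_6995cd_al.Local
section

/-! The theorem over a finite local ring with enough roots of unity. -/

universe u v w

open TensorProduct PowerSeries

namespace Pool.Agent.Lib.MP_6995cd_al

variable {R : Type u} {G : Type v} [CommRing R] [IsLocalRing R] [Finite R] [Group G]

theorem includeRight_injective_repRing : Function.Injective
    (Algebra.TensorProduct.includeRight : RepRing R G →ₐ[ℤ] ℂ ⊗[ℤ] RepRing R G) := by
  haveI : IsAddTorsionFree (RepRing R G) := ⟨fun k hk x y h => by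
    have h' : k • x = k • y := h
    refine sub_eq_zero.1 (eq_zero_of_natCast_mul (Nat.pos_of_ne_zero hk) ?_)
    rw [← nsmul_eq_mul, smul_sub, h', sub_self]⟩
  haveI : Module.Flat ℤ (RepRing R G) := inferInstance
  exact Algebra.TensorProduct.includeRight_injective (RingHom.injective_int _)

theorem exists_goodChar (B : Type w) [CommRing B] [Algebra ℂ B] (n : ℕ) [NeZero n] :
    ∃ ω : AddChar (ZMod n) B, GoodChar ω := by
  refine ⟨(algebraMap ℂ B).toMonoidHom.compAddChar ZMod.stdAddChar, fun a ha => ?_⟩
  have h1 : ZMod.stdAddChar a - 1 ≠ 0 := by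
    rw [sub_ne_zero]
    intro h
    exact ha (ZMod.injective_stdAddChar (by rw [h, AddChar.map_zero_eq_one]))
  have := (IsUnit.mk0 _ h1).map (algebraMap ℂ B)
  rwa [map_sub, map_one] at this

theorem isUnit_natCast_complex (B : Type w) [CommRing B] [Algebra ℂ B] {n : ℕ} (hn : n ≠ 0) :
    IsUnit (n : B) := by
  have := (IsUnit.mk0 (n : ℂ) (by exact_mod_cast hn)).map (algebraMap ℂ B)
  rwa [map_natCast] at this

theorem psi_mul' {n : ℕ} [NeZero n] (d : CycData R n) (x y : RepRing R G) :
    psi n (x * y) = psi n x * psi n y := by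
  obtain ⟨ω, hω⟩ := exists_goodChar (ℂ ⊗[ℤ] RepRing R G) n
  apply includeRight_injective_repRing
  rw [map_mul Algebra.TensorProduct.includeRight]
  exact psi_mul d (Algebra.TensorProduct.includeRight :
    RepRing R G →ₐ[ℤ] ℂ ⊗[ℤ] RepRing R G).toRingHom hω
    (isUnit_natCast_complex _ (NeZero.ne n)) x y

theorem psi_idem {p K : ℕ}
    (hd : ∀ (n : ℕ) [NeZero n], n ≤ K → ¬p ∣ n → Nonempty (CycData R n))
    {e : RepRing R G} (he : e * e = e) (n : ℕ) (hn : 0 < n) (hK : n ≤ K) (hp : ¬p ∣ n) :
    psi n e = e := by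
  induction n using Nat.strong_induction_on with
  | _ n ih =>
    by_cases h1 : n = 1
    · rw [h1, psi_one]
    have hl : n.minFac.Prime := Nat.minFac_prime h1
    obtain ⟨m, hm⟩ := Nat.minFac_dvd n
    have hm0 : 0 < m := Nat.pos_of_ne_zero (by rintro rfl; omega)
    have hmn : m < n := by have := hl.one_lt; nlinarith
    have hme : psi m e = e := ih m hmn hm0 (by omega) (fun h => hp (hm ▸ h.mul_left _))
    haveI : NeZero n := ⟨hn.ne'⟩
    obtain ⟨d⟩ := hd n hK hp
    refine idem_eq_of_congr (l := (n.minFac : RepRing R G))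
      (eq_zero_of_forall_pow_dvd hl.one_lt) (by rw [← psi_mul' d, he]) he fun q hq hlq => ?_
    have := psi_mul_congr hl m q hq hlq e
    rwa [← hm, hme, IsIdempotentElem.pow_eq he hl.ne_zero] at this

theorem iso_of_idem_of_roots {p : ℕ} (hp : p.Prime) {M N : FRep R G}
    (hr : Module.finrank R M.V = Module.finrank R N.V)
    (hd : ∀ (n : ℕ) [NeZero n], n ≤ 2 * Module.finrank R M.V + 1 → ¬p ∣ n →
      Nonempty (CycData R n))
    (he : (cl M - cl N) * (cl M - cl N) = cl M - cl N) : M.Iso N := by
  let B := ℂ ⊗[ℤ] RepRing R G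
  let ι : RepRing R G →+* B := (Algebra.TensorProduct.includeRight :
    RepRing R G →ₐ[ℤ] ℂ ⊗[ℤ] RepRing R G).toRingHom
  have hι : Function.Injective ι := includeRight_injective_repRing
  haveI := Fact.mk hp
  obtain ⟨ω, hω⟩ := exists_goodChar B p
  have hc : ∀ Z : FRep R G, constantCoeff (PowerSeries.map ι (Lam Z)) = 1 := fun Z => by
    rw [← coeff_zero_eq_constantCoeff_apply, coeff_map, coeff_zero_eq_constantCoeff_apply,
      constantCoeff_Lam, map_one]
  have hu : ∀ Z : FRep R G,
      IsUnit (coeff (Module.finrank R Z.V) (PowerSeries.map ι (Lam Z))) := fun Z => by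
    rw [coeff_map, coeff_Lam]
    exact (((isUnit_one.neg).pow _).mul (isUnit_cl_extp_top Z)).map ι
  have key : ι (cl M - cl N) = 0 := by
    refine eq_zero_of_ghost (fun n a hn h => ?_) (hc M) (hc N) ((logD_adams M).map ι)
      ((logD_adams N).map ι) ((degLE_Lam M).map ι) (hr ▸ (degLE_Lam N).map ι) (hu M) (hr ▸ hu N)
      (by rw [← map_mul, he]) (hω 1 one_ne_zero) (z := ω 1) ?_ ?_
    · exact ((isUnit_natCast_complex B hn.ne').mul_right_eq_zero).1 h
    · refine IsUnit.of_mul_eq_one (ω (-1)) ?_
      rw [← AddChar.map_add_eq_mul, add_neg_cancel, AddChar.map_zero_eq_one]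
    · intro k hk hkr
      by_cases hpk : p ∣ k
      · left
        rw [← AddChar.map_nsmul_eq_pow, nsmul_eq_mul, mul_one,
          (ZMod.natCast_eq_zero_iff k p).2 hpk, AddChar.map_zero_eq_one]
      · right
        rw [coeff_map, coeff_map, ← psi_apply, ← psi_apply, ← map_sub, ← map_sub,
          psi_idem hd he k hk hkr hpk]
  refine iso_of_cl_eq (sub_eq_zero.1 (hι ?_))
  rw [key, map_zero]

end Pool.Agent.Lib.MP_6995cd_al
end

-- part Pool.Agent.Lib.MP_6995cd_al.BaseChange
section

/-! Base change and matrix representations. -/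

universe u v w

open TensorProduct

namespace Pool.Agent.Lib.MP_6995cd_al

variable {R : Type u} {G : Type v} [CommRing R] [Monoid G]

section bc

variable (S : Type u) [CommRing S] [Algebra R S]

/-- Base change of a representation. -/
noncomputable abbrev FRep.bc (M : FRep R G) : FRep S G where
  V := S ⊗[R] M.V
  ρ :=
    { toFun := fun g => (M.ρ g).baseChange S
      map_one' := by rw [map_one, LinearMap.baseChange_one]
      map_mul' := fun g h => by rw [map_mul, LinearMap.baseChange_mul] }

theorem FRep.Iso.bc {M N : FRep R G} (h : M.Iso N) : (M.bc S).Iso (N.bc S) := by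
  obtain ⟨e, he⟩ := h
  refine ⟨e.baseChange R S _ _, fun g x => ?_⟩
  change e.baseChange R S _ _ ((M.ρ g).baseChange S x) =
    (N.ρ g).baseChange S (e.baseChange R S _ _ x)
  induction x using TensorProduct.induction_on with
  | zero => simp only [map_zero]
  | tmul a b => simp [he]
  | add a b ha hb => simp only [map_add, ha, hb]

theorem FRep.bc_sum (M N : FRep R G) : ((M.sum N).bc S).Iso ((M.bc S).sum (N.bc S)) := by
  refine ⟨TensorProduct.prodRight R S S M.V N.V, fun g x => ?_⟩
  change TensorProduct.prodRight R S S M.V N.V (((M.ρ g).prodMap (N.ρ g)).baseChange S x) =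
    ((M.ρ g).baseChange S).prodMap ((N.ρ g).baseChange S) (TensorProduct.prodRight R S S M.V N.V x)
  induction x using TensorProduct.induction_on with
  | zero => simp only [map_zero]
  | tmul a b => obtain ⟨b, c⟩ := b; simp
  | add a b ha hb => simp only [map_add, ha, hb]

theorem FRep.bc_tensor (M N : FRep R G) : ((M.tensor N).bc S).Iso ((M.bc S).tensor (N.bc S)) := by
  refine ⟨AlgebraTensorModule.distribBaseChange R S M.V N.V, fun g x => ?_⟩
  change AlgebraTensorModule.distribBaseChange R S M.V N.V
      ((TensorProduct.map (M.ρ g) (N.ρ g)).baseChange S x) =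
    TensorProduct.map ((M.ρ g).baseChange S) ((N.ρ g).baseChange S)
      (AlgebraTensorModule.distribBaseChange R S M.V N.V x)
  induction x using TensorProduct.induction_on with
  | zero => simp only [map_zero]
  | tmul a b =>
    induction b using TensorProduct.induction_on with
    | zero => simp only [TensorProduct.tmul_zero, map_zero]
    | tmul b c => simp
    | add b c hb hc => simp only [TensorProduct.tmul_add, map_add, hb, hc]
  | add a b ha hb => simp only [map_add, ha, hb]

theorem FRep.bc_one : ((FRep.triv R G).bc S).Iso (FRep.triv S G) := by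
  refine ⟨AlgebraTensorModule.rid R S S, fun g x => ?_⟩
  change AlgebraTensorModule.rid R S S ((LinearMap.id : R →ₗ[R] R).baseChange S x) =
    AlgebraTensorModule.rid R S S x
  rw [LinearMap.baseChange_id, LinearMap.id_apply]

/-- Base change on representation rings. -/
noncomputable def bcHom : RepRing R G →+* RepRing S G :=
  liftRing (fun M => cl (M.bc S)) (fun _ _ h => cl_congr (h.bc S))
    (fun M N => by rw [cl_congr (M.bc_sum S N), cl_sum])
    (fun M N => by rw [cl_congr (M.bc_tensor S N), cl_tensor])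
    (by rw [cl_congr (FRep.bc_one S), cl_one])

theorem bcHom_cl (M : FRep R G) : bcHom S (cl M) = cl (M.bc S) := liftRing_cl _ _ _ _ _ M

end bc

section mat

variable {ι κ : Type} [Fintype ι] [DecidableEq ι] [Fintype κ] [DecidableEq κ]

theorem iso_iff_mat {M N : FRep R G} (b : Module.Basis ι R M.V) (b' : Module.Basis κ R N.V) :
    M.Iso N ↔ ∃ (P : Matrix κ ι R) (Q : Matrix ι κ R), P * Q = 1 ∧ Q * P = 1 ∧
      ∀ g, P * LinearMap.toMatrix b b (M.ρ g) = LinearMap.toMatrix b' b' (N.ρ g) * P := by
  constructor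
  · rintro ⟨e, he⟩
    refine ⟨LinearMap.toMatrix b b' e.toLinearMap, LinearMap.toMatrix b' b e.symm.toLinearMap,
      ?_, ?_, fun g => ?_⟩
    · rw [← LinearMap.toMatrix_comp, LinearEquiv.comp_symm, LinearMap.toMatrix_id]
    · rw [← LinearMap.toMatrix_comp, LinearEquiv.symm_comp, LinearMap.toMatrix_id]
    · rw [← LinearMap.toMatrix_comp, ← LinearMap.toMatrix_comp]
      congr 1
      exact LinearMap.ext (he g)
  · rintro ⟨P, Q, h1, h2, h3⟩
    refine ⟨LinearEquiv.ofLinearMap (Matrix.toLin b b' P) (Matrix.toLin b' b Q) ?_ ?_,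
      fun g x => ?_⟩
    · rw [← Matrix.toLin_mul, h1, Matrix.toLin_one]
    · rw [← Matrix.toLin_mul, h2, Matrix.toLin_one]
    · have := congrArg (Matrix.toLin b b') (h3 g)
      rw [Matrix.toLin_mul b b b', Matrix.toLin_mul b b' b', Matrix.toLin_toMatrix,
        Matrix.toLin_toMatrix] at this
      exact congrArg (fun φ => φ x) this

theorem iso_of_mat_eq {M N : FRep R G} (b : Module.Basis ι R M.V) (b' : Module.Basis ι R N.V)
    (h : ∀ g, LinearMap.toMatrix b b (M.ρ g) = LinearMap.toMatrix b' b' (N.ρ g)) : M.Iso N :=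
  (iso_iff_mat b b').2 ⟨1, 1, mul_one _, mul_one _, fun g => by rw [one_mul, mul_one, h]⟩

/-- The representation attached to a matrix representation. -/
noncomputable abbrev ofMat (μ : G →* Matrix ι ι R) : FRep R G where
  V := ι → R
  ρ :=
    { toFun := fun g => Matrix.toLin' (μ g)
      map_one' := by rw [map_one, Matrix.toLin'_one]; rfl
      map_mul' := fun g h => by rw [map_mul, Matrix.toLin'_mul]; rfl }

theorem toMatrix_ofMat (μ : G →* Matrix ι ι R) (g : G) :
    LinearMap.toMatrix (Pi.basisFun R ι) (Pi.basisFun R ι) ((ofMat μ).ρ g) = μ g := by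
  change LinearMap.toMatrix (Pi.basisFun R ι) (Pi.basisFun R ι) (Matrix.toLin' (μ g)) = μ g
  rw [LinearMap.toMatrix_eq_toMatrix', LinearMap.toMatrix'_toLin']

theorem ofMat_iso_iff (μ : G →* Matrix ι ι R) (ν : G →* Matrix κ κ R) :
    (ofMat μ).Iso (ofMat ν) ↔ ∃ (P : Matrix κ ι R) (Q : Matrix ι κ R), P * Q = 1 ∧ Q * P = 1 ∧
      ∀ g, P * μ g = ν g * P := by
  rw [iso_iff_mat (M := ofMat μ) (N := ofMat ν) (Pi.basisFun R ι) (Pi.basisFun R κ)]
  refine exists_congr fun P => exists_congr fun Q => and_congr_right fun _ =>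
    and_congr_right fun _ => forall_congr' fun g => ?_
  rw [toMatrix_ofMat, toMatrix_ofMat]

theorem exists_ofMat_of_basis (M : FRep R G) (b : Module.Basis ι R M.V) :
    ∃ μ : G →* Matrix ι ι R, M.Iso (ofMat μ) :=
  ⟨(LinearMap.toMatrixAlgEquiv b).toMonoidHom.comp M.ρ,
    iso_of_mat_eq (N := ofMat _) b (Pi.basisFun R ι) fun g => by rw [toMatrix_ofMat]; rfl⟩

theorem exists_ofMat (M : FRep R G) :
    ∃ (r : ℕ) (μ : G →* Matrix (Fin r) (Fin r) R), M.Iso (ofMat μ) :=
  ⟨_, exists_ofMat_of_basis M ((Module.Free.chooseBasis R M.V).reindex (Fintype.equivFin _))⟩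

theorem exists_sub_ofMat (x : RepRing R G) : ∃ (r s : ℕ) (μ : G →* Matrix (Fin r) (Fin r) R)
    (ν : G →* Matrix (Fin s) (Fin s) R), x = cl (ofMat μ) - cl (ofMat ν) := by
  obtain ⟨M, N, rfl⟩ := exists_sub x
  obtain ⟨r, μ, h⟩ := exists_ofMat M
  obtain ⟨s, ν, h'⟩ := exists_ofMat N
  exact ⟨r, s, μ, ν, by rw [cl_congr h, cl_congr h']⟩

/-- Entrywise image of a matrix representation. -/
def matMap {S : Type u} [CommRing S] (φ : R →+* S) (μ : G →* Matrix ι ι R) :
    G →* Matrix ι ι S := φ.mapMatrix.toMonoidHom.comp μ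

theorem matMap_apply {S : Type u} [CommRing S] (φ : R →+* S) (μ : G →* Matrix ι ι R) (g : G) :
    matMap φ μ g = (μ g).map φ := rfl

/-- Block sum of matrix representations. -/
def matSum (μ : G →* Matrix ι ι R) (ν : G →* Matrix κ κ R) : G →* Matrix (ι ⊕ κ) (ι ⊕ κ) R where
  toFun g := Matrix.fromBlocks (μ g) 0 0 (ν g)
  map_one' := by simp
  map_mul' g h := by simp [Matrix.fromBlocks_multiply]

theorem ofMat_sum_iso (μ : G →* Matrix ι ι R) (ν : G →* Matrix κ κ R) :
    ((ofMat μ).sum (ofMat ν)).Iso (ofMat (matSum μ ν)) := by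
  refine iso_of_mat_eq (M := (ofMat μ).sum (ofMat ν)) (N := ofMat _)
    ((Pi.basisFun R ι).prod (Pi.basisFun R κ)) (Pi.basisFun R _) fun g => ?_
  rw [toMatrix_ofMat]
  refine (LinearMap.toMatrix_prodMap _ _ ((ofMat μ).ρ g) ((ofMat ν).ρ g)).trans ?_
  rw [toMatrix_ofMat, toMatrix_ofMat]
  rfl

/-- Base change along a ring homomorphism. -/
noncomputable def bcMap {S : Type u} [CommRing S] (φ : R →+* S) : RepRing R G →+* RepRing S G :=
  letI := φ.toAlgebra
  bcHom S

theorem bcMap_ofMat {S : Type u} [CommRing S] (φ : R →+* S) (μ : G →* Matrix ι ι R) :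
    bcMap φ (cl (ofMat μ)) = cl (ofMat (matMap φ μ)) := by
  letI := φ.toAlgebra
  change bcHom S _ = _
  rw [bcHom_cl]
  refine cl_congr (iso_of_mat_eq (M := (ofMat μ).bc S) (N := ofMat _)
    (Algebra.TensorProduct.basis S (Pi.basisFun R ι)) (Pi.basisFun S ι) fun g => ?_)
  rw [toMatrix_ofMat]
  refine (LinearMap.toMatrix_baseChange S ((ofMat μ).ρ g) _ _).trans ?_
  rw [toMatrix_ofMat]
  rfl

theorem bcMap_comp {S T : Type u} [CommRing S] [CommRing T] (φ : R →+* S) (ψ : S →+* T)
    (x : RepRing R G) : bcMap ψ (bcMap φ x) = bcMap (ψ.comp φ) x := by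
  obtain ⟨r, s, μ, ν, rfl⟩ := exists_sub_ofMat x
  simp only [map_sub, bcMap_ofMat]
  rfl

end mat

end Pool.Agent.Lib.MP_6995cd_al
end

-- part Pool.Agent.Lib.MP_6995cd_al.Ext
section

/-! The theorem over an arbitrary finite local ring. -/

universe u v w

open TensorProduct Polynomial

namespace Pool.Agent.Lib.MP_6995cd_al

theorem nonempty_cycData {S : Type u} [CommRing S] [IsLocalRing S] {N : ℕ} (hN : 0 < N)
    [NeZero (N : IsLocalRing.ResidueField S)] {ζ : S} (hζ : (cyclotomic N S).IsRoot ζ)
    (n : ℕ) [NeZero n] (hn : n ∣ N) : Nonempty (CycData S n) := by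
  obtain ⟨m, hm⟩ := hn
  have h1 : ζ ^ N = 1 := by
    have := hζ.dvd (cyclotomic.dvd_X_pow_sub_one N S)
    simpa [sub_eq_zero] using this
  have h2 : IsPrimitiveRoot (IsLocalRing.residue S ζ) N := by
    rw [← isRoot_cyclotomic_iff, ← map_cyclotomic N (IsLocalRing.residue S)]
    exact hζ.map
  have h3 : IsPrimitiveRoot (IsLocalRing.residue S (ζ ^ m)) n := by
    rw [map_pow]
    exact h2.pow hN (by rw [hm, mul_comm])
  have h4 : (ζ ^ m) ^ n = 1 := by rw [← pow_mul, mul_comm, ← hm, h1]
  have h5 : IsUnit (n : S) := by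
    rw [← IsLocalRing.residue_ne_zero_iff_isUnit, map_natCast]
    intro h
    apply NeZero.ne (N : IsLocalRing.ResidueField S)
    rw [hm, Nat.cast_mul, h, zero_mul]
  obtain ⟨c, hc⟩ := h5.exists_left_inv
  refine ⟨⟨AddChar.zmodChar n h4, c, hc, fun a ha => ?_⟩⟩
  rw [← IsLocalRing.residue_ne_zero_iff_isUnit, map_sub, map_one, AddChar.zmodChar_apply, map_pow,
    sub_ne_zero]
  exact h3.pow_ne_one_of_pos_of_lt (by simpa using ha) (ZMod.val_lt a)

theorem exists_extension (R : Type u) [CommRing R] [IsLocalRing R] [Finite R] {p : ℕ}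
    (hp : p.Prime) (hpR : (p : IsLocalRing.ResidueField R) = 0) (K : ℕ) :
    ∃ (S : Type u) (_ : CommRing S) (_ : IsLocalRing S) (_ : Finite S) (_ : Algebra R S)
      (_ : Module.Free R S),
      ∀ (n : ℕ) [NeZero n], n ≤ K → ¬p ∣ n → Nonempty (CycData S n) := by
  classical
  let N := ∏ n ∈ (Finset.range (K + 1)).filter (fun n => ¬p ∣ n), n
  have hpN : ¬p ∣ N := by
    rw [(Nat.prime_iff.1 hp).dvd_finsetProd_iff]
    rintro ⟨n, hn, hpn⟩
    exact (Finset.mem_filter.1 hn).2 hpn
  have hN : 0 < N := Nat.pos_of_ne_zero fun h => hpN (h ▸ dvd_zero p)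
  have hmon : (cyclotomic N R).Monic := cyclotomic.monic N R
  let R₁ := AdjoinRoot (cyclotomic N R)
  haveI : Module.Free R R₁ := hmon.free_adjoinRoot
  haveI : Module.Finite R R₁ := hmon.finite_adjoinRoot
  haveI : Finite R₁ := Module.finite_of_finite R
  haveI : Nontrivial R₁ := by
    refine Module.nontrivial_of_finrank_pos (R := R) ?_
    rw [(AdjoinRoot.powerBasis' hmon).finrank, AdjoinRoot.powerBasis'_dim, natDegree_cyclotomic]
    exact Nat.totient_pos.2 hN
  obtain ⟨𝔫, h𝔫⟩ := Ideal.exists_maximal R₁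
  let S := Localization.AtPrime 𝔫
  haveI : Finite S := Finite.of_surjective _
    (IsArtinianRing.localization_surjective 𝔫.primeCompl S)
  haveI : Module.Flat R S := Module.Flat.trans R R₁ S
  haveI : Module.Finite R S := Module.Finite.of_finite
  haveI : Module.Free R S := Module.free_of_flat_of_isLocalRing
  have hpS : (p : IsLocalRing.ResidueField S) = 0 := by
    have h1 : (p : R) ∈ IsLocalRing.maximalIdeal R := by
      rw [← IsLocalRing.residue_eq_zero_iff, map_natCast]; exact hpR
    have h2 : IsNilpotent (p : R) := by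
      obtain ⟨k, hk⟩ := IsArtinianRing.isNilpotent_jacobson_bot (R := R)
      rw [IsLocalRing.jacobson_eq_maximalIdeal _ bot_ne_top] at hk
      refine ⟨k, ?_⟩
      have := Ideal.pow_mem_pow h1 k
      rwa [hk, Ideal.zero_eq_bot, Ideal.mem_bot] at this
    have h3 := h2.map ((IsLocalRing.residue S).comp (algebraMap R S))
    rw [map_natCast] at h3
    exact h3.eq_zero
  haveI : CharP (IsLocalRing.ResidueField S) p := (CharP.charP_iff_prime_eq_zero hp).2 hpS
  haveI : NeZero (N : IsLocalRing.ResidueField S) := NeZero.of_not_dvd _ hpN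
  have hζ : (cyclotomic N S).IsRoot (algebraMap R₁ S (AdjoinRoot.root _)) := by
    rw [← map_cyclotomic N (algebraMap R₁ S)]
    refine IsRoot.map ?_
    rw [← map_cyclotomic N (AdjoinRoot.of (cyclotomic N R))]
    exact AdjoinRoot.isRoot_root _
  refine ⟨S, inferInstance, inferInstance, inferInstance, inferInstance, inferInstance,
    fun n _ hn hpn => nonempty_cycData hN hζ n ?_⟩
  exact Finset.dvd_prod_of_mem _ (Finset.mem_filter.2 ⟨Finset.mem_range.2 (by omega), hpn⟩)

variable {R : Type u} {G : Type v} [CommRing R]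

theorem cl_trivial [Monoid G] [Nontrivial R] (S : Type u) [AddCommGroup S] [Module R S]
    [Module.Free R S] [Module.Finite R S] :
    cl (⟨S, Representation.trivial R G S⟩ : FRep R G) = Module.finrank R S := by
  have h1 := cl_pi (fun _ : Fin (Module.finrank R S) => FRep.triv R G)
  rw [cl_one, Finset.sum_const, Finset.card_univ, Fintype.card_fin, nsmul_eq_mul, mul_one] at h1
  rw [← h1]
  exact cl_congr ⟨(Module.finBasis R S).equivFun, fun g x => rfl⟩

theorem iso_of_bc_iso [Monoid G] [Finite R] [Nontrivial R] (S : Type u) [CommRing S] [Algebra R S]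
    [Module.Free R S] [Module.Finite R S] [Nontrivial S] {M N : FRep R G}
    (h : (M.bc S).Iso (N.bc S)) : M.Iso N := by
  obtain ⟨e, he⟩ := h
  let T : FRep R G := ⟨S, Representation.trivial R G S⟩
  have h1 : (T.tensor M).Iso (T.tensor N) := ⟨e.restrictScalars R, fun g x => he g x⟩
  have h2 := cl_congr h1
  rw [cl_tensor, cl_tensor, cl_trivial] at h2
  refine iso_of_cl_eq (sub_eq_zero.1 (eq_zero_of_natCast_mul
    ((Module.finrank_pos_iff_of_free R S).2 inferInstance) ?_))
  rw [mul_sub, h2, sub_self]

theorem iso_of_idem_finite_local [Group G] [IsLocalRing R] [Finite R] {M N : FRep R G}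
    (hr : Module.finrank R M.V = Module.finrank R N.V)
    (he : (cl M - cl N) * (cl M - cl N) = cl M - cl N) : M.Iso N := by
  haveI : Finite (IsLocalRing.ResidueField R) :=
    Finite.of_surjective _ (IsLocalRing.residue_surjective (R := R))
  obtain ⟨p, hpc⟩ := CharP.exists (IsLocalRing.ResidueField R)
  have hp : p.Prime := CharP.char_is_prime (IsLocalRing.ResidueField R) p
  obtain ⟨S, _, _, _, _, _, hS⟩ := exists_extension R hp (CharP.cast_eq_zero _ p)
    (2 * Module.finrank R M.V + 1)
  haveI : Module.Finite R S := Module.Finite.of_finite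
  refine iso_of_bc_iso S (iso_of_idem_of_roots hp ?_ ?_ ?_)
  · rw [Module.finrank_baseChange, Module.finrank_baseChange, hr]
  · rw [Module.finrank_baseChange]; exact hS
  · rw [← bcHom_cl, ← bcHom_cl, ← map_sub, ← map_mul, he]

end Pool.Agent.Lib.MP_6995cd_al
end
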