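import Pool.Agent.Lib.MP_6995cd_al.Ext

/-! Globalisation: finitely generated rings, then arbitrary rings. -/

universe u v w

open TensorProduct

namespace Pool.Agent.Lib.MP_6995cd_al

instance isJacobsonRing_int : IsJacobsonRing ℤ := by
  rw [isJacobsonRing_iff_prime_eq]
  intro P hP
  by_cases h0 : P = ⊥
  · subst h0
    refine eq_bot_iff.2 fun x hx => ?_
    by_contra hx0
    have hx0' : x ≠ 0 := hx0
    obtain ⟨q, hq1, hq⟩ := Nat.exists_infinite_primes (x.natAbs + 1)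
    have hqi : Prime (q : ℤ) := Nat.prime_iff_prime_int.1 hq
    haveI : (Ideal.span {(q : ℤ)}).IsPrime := (Ideal.span_singleton_prime hqi.ne_zero).2 hqi
    have hmax : (Ideal.span {(q : ℤ)}).IsMaximal :=
      IsPrime.to_maximal_ideal (by simpa using hq.ne_zero)
    have hmem : x ∈ Ideal.span {(q : ℤ)} := Ideal.mem_sInf.1 hx ⟨bot_le, hmax⟩
    rw [Ideal.mem_span_singleton, Int.natCast_dvd] at hmem
    have := Nat.le_of_dvd (Int.natAbs_pos.2 hx0') hmem
    omega
  · haveI := IsPrime.to_maximal_ideal h0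
    exact Ideal.jacobson_eq_self_of_isMaximal

theorem finite_field_of_finiteType {R : Type u} [CommRing R] [Algebra.FiniteType ℤ R] (K : Type u)
    [Field K] (f : R →+* K) (hf : Function.Surjective f) : Finite K := by
  haveI : Algebra.FiniteType ℤ K := Algebra.FiniteType.of_surjective f.toIntAlgHom hf
  haveI : Module.Finite ℤ K := finite_of_finite_type_of_isJacobsonRing ℤ K
  obtain ⟨p, hp⟩ := CharP.exists K
  rcases CharP.char_is_prime_or_zero K p with hp' | rfl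
  · haveI := Fact.mk hp'
    letI : Algebra (ZMod p) K := ZMod.algebra K p
    haveI : Module.Finite (ZMod p) K := Module.Finite.of_restrictScalars_finite ℤ (ZMod p) K
    exact Module.finite_of_finite (ZMod p)
  · haveI : CharZero K := CharP.charP_to_charZero K
    exact absurd ((Algebra.IsIntegral.isField_iff_isField
      (algebraMap ℤ K).injective_int).2 (Field.toIsField K)) Int.not_isField

theorem isLocalRing_quotient_pow {R : Type u} [CommRing R] (𝔪 : Ideal R) [h𝔪 : 𝔪.IsMaximal]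
    (k : ℕ) : IsLocalRing (R ⧸ 𝔪 ^ (k + 1)) := by
  haveI : Nontrivial (R ⧸ 𝔪 ^ (k + 1)) := Ideal.Quotient.nontrivial_iff.2 fun h =>
    h𝔪.ne_top (eq_top_iff.2 (h ▸ Ideal.pow_le_self (Nat.succ_ne_zero k)))
  refine IsLocalRing.of_isUnit_or_isUnit_one_sub_self fun a => ?_
  obtain ⟨x, rfl⟩ := Ideal.Quotient.mk_surjective a
  have hnil : ∀ y ∈ 𝔪, IsNilpotent (Ideal.Quotient.mk (𝔪 ^ (k + 1)) y) := fun y hy =>
    ⟨k + 1, by rw [← map_pow, Ideal.Quotient.eq_zero_iff_mem]; exact Ideal.pow_mem_pow hy _⟩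
  by_cases hx : x ∈ 𝔪
  · exact Or.inr (hnil x hx).isUnit_one_sub
  · obtain ⟨y, c, hc, hyc⟩ := h𝔪.exists_inv hx
    left
    have h1 : IsUnit (1 - Ideal.Quotient.mk (𝔪 ^ (k + 1)) c) := (hnil c hc).isUnit_one_sub
    have h2 : 1 - Ideal.Quotient.mk (𝔪 ^ (k + 1)) c =
        Ideal.Quotient.mk (𝔪 ^ (k + 1)) y * Ideal.Quotient.mk (𝔪 ^ (k + 1)) x := by
      rw [← map_mul, ← map_one (Ideal.Quotient.mk (𝔪 ^ (k + 1))), ← map_sub, ← hyc]
      simp
    rw [h2] at h1
    exact isUnit_of_mul_isUnit_right h1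

theorem mem_smul_top_of_forall {R : Type u} [CommRing R] {J : Type v} [Fintype J] (I : Ideal R)
    (x : J → R) (h : ∀ j, x j ∈ I) : x ∈ (I • ⊤ : Submodule R (J → R)) := by
  classical
  rw [pi_eq_sum_univ x]
  exact Submodule.sum_mem _ fun j _ => Submodule.smul_mem_smul (h j) Submodule.mem_top

variable {R : Type u} {G : Type v} [CommRing R]

theorem exists_intertwiner [Group G] [Finite G] [Algebra.FiniteType ℤ R] {r : ℕ}
    (μ ν : G →* Matrix (Fin r) (Fin r) R)
    (he : (cl (ofMat μ) - cl (ofMat ν)) * (cl (ofMat μ) - cl (ofMat ν)) =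
      cl (ofMat μ) - cl (ofMat ν)) (𝔪 : Ideal R) (h𝔪 : 𝔪.IsMaximal) :
    ∃ Φ : Matrix (Fin r) (Fin r) R, (∀ g, Φ * μ g = ν g * Φ) ∧ Φ.det ∉ 𝔪 := by
  classical
  haveI := Fintype.ofFinite G
  haveI : IsNoetherianRing R := Algebra.FiniteType.isNoetherianRing ℤ R
  let δ : Matrix (Fin r) (Fin r) R →ₗ[R] (G × Fin r × Fin r → R) :=
    { toFun := fun P x => (P * μ x.1 - ν x.1 * P) x.2.1 x.2.2
      map_add' := fun P Q => by
        funext x
        simp only [add_mul, mul_add, Matrix.sub_apply, Matrix.add_apply, Pi.add_apply]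
        ring
      map_smul' := fun c P => by
        funext x
        simp only [Matrix.smul_mul, Matrix.mul_smul, Matrix.sub_apply, Matrix.smul_apply,
          Pi.smul_apply, RingHom.id_apply, smul_eq_mul]
        ring }
  obtain ⟨k, hk⟩ := Ideal.exists_pow_inf_eq_pow_smul 𝔪 (LinearMap.range δ)
  have hk1 := hk (k + 1) (Nat.le_succ k)
  rw [Nat.add_sub_cancel_left, pow_one] at hk1
  haveI := isLocalRing_quotient_pow 𝔪 k
  haveI : Finite (R ⧸ 𝔪) := by
    letI := Ideal.Quotient.field 𝔪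
    exact finite_field_of_finiteType (R ⧸ 𝔪) (Ideal.Quotient.mk 𝔪) Ideal.Quotient.mk_surjective
  haveI : Finite (R ⧸ 𝔪 ^ (k + 1)) := Ideal.finite_quotient_pow (IsNoetherian.noetherian 𝔪) _
  let π := Ideal.Quotient.mk (𝔪 ^ (k + 1))
  have hiso : (ofMat (matMap π μ)).Iso (ofMat (matMap π ν)) := by
    refine iso_of_idem_finite_local rfl ?_
    rw [← bcMap_ofMat, ← bcMap_ofMat, ← map_sub, ← map_mul, he]
  obtain ⟨P', Q', h1, -, h3⟩ := (ofMat_iso_iff _ _).1 hiso
  choose P hP using fun i j => Ideal.Quotient.mk_surjective (P' i j)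
  have hPP : (Matrix.of P).map π = P' := by ext i j; exact hP i j
  have hδ : δ (Matrix.of P) ∈ (𝔪 ^ (k + 1) • ⊤ : Submodule R (G × Fin r × Fin r → R)) := by
    refine mem_smul_top_of_forall _ _ fun x => ?_
    rw [← Ideal.Quotient.eq_zero_iff_mem]
    have h4 : (Matrix.of P * μ x.1 - ν x.1 * Matrix.of P).map π = 0 := by
      rw [Matrix.map_sub _ (map_sub π), Matrix.map_mul, Matrix.map_mul, hPP, ← matMap_apply,
        ← matMap_apply, h3, sub_self]
    exact congrFun (congrFun h4 x.2.1) x.2.2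
  have h5 : δ (Matrix.of P) ∈ (𝔪 • ⊤ : Submodule R (Matrix (Fin r) (Fin r) R)).map δ := by
    rw [Submodule.map_smul'', Submodule.map_top]
    have : δ (Matrix.of P) ∈ (𝔪 ^ (k + 1) • ⊤ ⊓ LinearMap.range δ :
      Submodule R (G × Fin r × Fin r → R)) := ⟨hδ, LinearMap.mem_range_self _ _⟩
    rw [hk1] at this
    exact Submodule.smul_mono le_rfl inf_le_right this
  obtain ⟨Ψ, hΨ, hΨδ⟩ := h5
  have hΨm : ∀ i j, Ψ i j ∈ 𝔪 := by
    refine Submodule.smul_induction_on (p := fun Ψ : Matrix (Fin r) (Fin r) R => ∀ i j, Ψ i j ∈ 𝔪)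
      hΨ ?_ ?_
    · intro a ha X _ i j
      exact 𝔪.mul_mem_right _ ha
    · intro X Y hX hY i j
      exact 𝔪.add_mem (hX i j) (hY i j)
  refine ⟨Matrix.of P - Ψ, fun g => ?_, ?_⟩
  · have h6 : δ (Matrix.of P - Ψ) = 0 := by rw [map_sub, hΨδ, sub_self]
    rw [← sub_eq_zero]
    ext i j
    exact congrFun h6 (g, i, j)
  · rw [← Ideal.Quotient.eq_zero_iff_mem, RingHom.map_det]
    let τ : R ⧸ 𝔪 ^ (k + 1) →+* R ⧸ 𝔪 :=
      Ideal.Quotient.factor (Ideal.pow_le_self (Nat.succ_ne_zero k))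
    have h7 : (Ideal.Quotient.mk 𝔪).mapMatrix (Matrix.of P - Ψ) = τ.mapMatrix P' := by
      ext i j
      rw [← hPP]
      simp [τ, π, Ideal.Quotient.eq_zero_iff_mem.2 (hΨm i j)]
    rw [h7, ← RingHom.map_det]
    haveI : Nontrivial (R ⧸ 𝔪) := Ideal.Quotient.nontrivial_iff.2 h𝔪.ne_top
    have h8 : IsUnit P'.det := Matrix.isUnit_det_of_right_inverse h1
    exact (h8.map τ).ne_zero

/-- An equivariant matrix factorisation of `f` with Euler class `e`. -/
def IsFact [Monoid G] (e : RepRing R G) (f : R) : Prop :=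
  ∃ (P Q : FRep R G) (φ : P.V →ₗ[R] Q.V) (ψ : Q.V →ₗ[R] P.V),
    (∀ g x, φ (P.ρ g x) = Q.ρ g (φ x)) ∧ (∀ g x, ψ (Q.ρ g x) = P.ρ g (ψ x)) ∧
    (∀ x, ψ (φ x) = f • x) ∧ (∀ x, φ (ψ x) = f • x) ∧ cl P - cl Q = e

theorem IsFact.smul [Monoid G] {e : RepRing R G} {f : R} (h : IsFact e f) (c : R) :
    IsFact e (c * f) := by
  obtain ⟨P, Q, φ, ψ, h1, h2, h3, h4, h5⟩ := h
  refine ⟨P, Q, φ, c • ψ, h1, fun g x => ?_, fun x => ?_, fun x => ?_, h5⟩
  · rw [LinearMap.smul_apply, LinearMap.smul_apply, h2, map_smul]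
  · rw [LinearMap.smul_apply, h3, mul_smul]
  · rw [LinearMap.smul_apply, map_smul, h4, mul_smul]

theorem IsFact.add [Monoid G] {e e' : RepRing R G} {f f' : R} (h : IsFact e f)
    (h' : IsFact e' f') : IsFact (e * e') (f + f') := by
  obtain ⟨P, Q, φ, ψ, h1, h2, h3, h4, h5⟩ := h
  obtain ⟨P', Q', φ', ψ', h1', h2', h3', h4', h5'⟩ := h'
  let Φ : (P.V ⊗[R] P'.V) × (Q.V ⊗[R] Q'.V) →ₗ[R] (Q.V ⊗[R] P'.V) × (P.V ⊗[R] Q'.V) :=
    LinearMap.prod (LinearMap.coprod (φ.rTensor P'.V) (-(ψ'.lTensor Q.V)))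
      (LinearMap.coprod (φ'.lTensor P.V) (ψ.rTensor Q'.V))
  let Ψ : (Q.V ⊗[R] P'.V) × (P.V ⊗[R] Q'.V) →ₗ[R] (P.V ⊗[R] P'.V) × (Q.V ⊗[R] Q'.V) :=
    LinearMap.prod (LinearMap.coprod (ψ.rTensor P'.V) (ψ'.lTensor P.V))
      (LinearMap.coprod (-(φ'.lTensor Q.V)) (φ.rTensor Q'.V))
  refine ⟨(P.tensor P').sum (Q.tensor Q'), (Q.tensor P').sum (P.tensor Q'), Φ, Ψ,
    fun g x => ?_, fun g x => ?_, fun x => ?_, fun x => ?_, ?_⟩
  · have : Φ ∘ₗ (TensorProduct.map (P.ρ g) (P'.ρ g)).prodMap (TensorProduct.map (Q.ρ g) (Q'.ρ g)) =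
        (TensorProduct.map (Q.ρ g) (P'.ρ g)).prodMap (TensorProduct.map (P.ρ g) (Q'.ρ g)) ∘ₗ Φ := by
      ext a b <;> simp [Φ, h1, h2, h1', h2']
    exact congrArg (fun φ => φ x) this
  · have : Ψ ∘ₗ (TensorProduct.map (Q.ρ g) (P'.ρ g)).prodMap (TensorProduct.map (P.ρ g) (Q'.ρ g)) =
        (TensorProduct.map (P.ρ g) (P'.ρ g)).prodMap (TensorProduct.map (Q.ρ g) (Q'.ρ g)) ∘ₗ Ψ := by
      ext a b <;> simp [Ψ, h1, h2, h1', h2']
    exact congrArg (fun φ => φ x) this
  · have : Ψ ∘ₗ Φ = (f + f') • LinearMap.id := by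
      ext a b <;> simp [Φ, Ψ, h3, h4, h3', h4', add_smul, ← TensorProduct.smul_tmul', add_comm]
    exact congrArg (fun φ => φ x) this
  · have : Φ ∘ₗ Ψ = (f + f') • LinearMap.id := by
      ext a b <;> simp [Φ, Ψ, h3, h4, h3', h4', add_smul, ← TensorProduct.smul_tmul', add_comm]
    exact congrArg (fun φ => φ x) this
  · rw [cl_sum, cl_sum, cl_tensor, cl_tensor, cl_tensor, cl_tensor, ← h5, ← h5']
    ring

theorem IsFact.eq_zero [Monoid G] {e : RepRing R G} (h : IsFact e 1) : e = 0 := by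
  obtain ⟨P, Q, φ, ψ, h1, -, h3, h4, h5⟩ := h
  have : P.Iso Q := ⟨LinearEquiv.ofLinearMap φ ψ (LinearMap.ext fun x => by simp [h4])
    (LinearMap.ext fun x => by simp [h3]), h1⟩
  rw [← h5, cl_congr this, sub_self]

theorem isFact_of_intertwiner [Monoid G] {r : ℕ} (μ ν : G →* Matrix (Fin r) (Fin r) R)
    (Φ : Matrix (Fin r) (Fin r) R) (hΦ : ∀ g, Φ * μ g = ν g * Φ) :
    IsFact (cl (ofMat μ) - cl (ofMat ν)) (Φ.det * Φ.det) := by
  have hΨ : ∀ g, (Φ.det • Φ.adjugate) * ν g = μ g * (Φ.det • Φ.adjugate) := by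
    intro g
    have h1 : Φ.adjugate * (Φ * μ g) * Φ.adjugate = Φ.adjugate * (ν g * Φ) * Φ.adjugate := by
      rw [hΦ]
    rw [← Matrix.mul_assoc, Matrix.adjugate_mul, Matrix.mul_assoc Φ.adjugate,
      Matrix.mul_assoc (ν g), Matrix.mul_adjugate] at h1
    simpa using h1.symm
  refine ⟨ofMat μ, ofMat ν, Matrix.toLin' Φ, Matrix.toLin' (Φ.det • Φ.adjugate), fun g x => ?_,
    fun g x => ?_, fun x => ?_, fun x => ?_, rfl⟩
  · change Matrix.toLin' Φ (Matrix.toLin' (μ g) x) = Matrix.toLin' (ν g) (Matrix.toLin' Φ x)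
    rw [← Matrix.toLin'_mul_apply, ← Matrix.toLin'_mul_apply, hΦ]
  · change Matrix.toLin' _ (Matrix.toLin' (ν g) x) = Matrix.toLin' (μ g) (Matrix.toLin' _ x)
    rw [← Matrix.toLin'_mul_apply, ← Matrix.toLin'_mul_apply, hΨ]
  · rw [← Matrix.toLin'_mul_apply, Matrix.smul_mul, Matrix.adjugate_mul, smul_smul, map_smul,
      Matrix.toLin'_one]
    rfl
  · rw [← Matrix.toLin'_mul_apply, Matrix.mul_smul, Matrix.mul_adjugate, smul_smul, map_smul,
      Matrix.toLin'_one]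
    rfl

theorem eq_zero_of_idem_finiteType [Group G] [Finite G] [Algebra.FiniteType ℤ R] [Nontrivial R]
    {M N : FRep R G} (hr : Module.finrank R M.V = Module.finrank R N.V)
    (he : (cl M - cl N) * (cl M - cl N) = cl M - cl N) : cl M - cl N = 0 := by
  obtain ⟨μ, hμ⟩ := exists_ofMat_of_basis M (Module.finBasis R M.V)
  obtain ⟨ν, hν⟩ := exists_ofMat_of_basis N (Module.finBasisOfFinrankEq R N.V hr.symm)
  rw [cl_congr hμ, cl_congr hν] at he ⊢
  let J : Ideal R :=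
    { carrier := {f | IsFact (cl (ofMat μ) - cl (ofMat ν)) f}
      add_mem' := fun {a b} ha hb => by
        have := IsFact.add ha hb
        rwa [he] at this
      zero_mem' := ⟨ofMat μ, ofMat ν, 0, 0, by simp, by simp, by simp, by simp, rfl⟩
      smul_mem' := fun c f hf => IsFact.smul hf c }
  have hJ : J = ⊤ := by
    by_contra hJ
    obtain ⟨𝔪, h𝔪, hle⟩ := Ideal.exists_le_maximal J hJ
    obtain ⟨Φ, hΦ, hdet⟩ := exists_intertwiner μ ν he 𝔪 h𝔪
    have := hle (isFact_of_intertwiner μ ν Φ hΦ)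
    rcases h𝔪.isPrime.mem_or_mem this with h | h <;> exact hdet h
  have h1 : (1 : R) ∈ J := hJ ▸ Submodule.mem_top
  exact IsFact.eq_zero h1

theorem idem_finiteType [Group G] [Finite G] [Algebra.FiniteType ℤ R] (e : RepRing R G)
    (he : e * e = e) : e = 0 ∨ e = 1 := by
  obtain ⟨M, N, rfl⟩ := exists_sub e
  rcases subsingleton_or_nontrivial R with hR | hR
  · haveI : Subsingleton M.V := Module.subsingleton R _
    haveI : Subsingleton N.V := Module.subsingleton R _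
    left
    rw [cl_of_subsingleton M, cl_of_subsingleton N, sub_self]
  have h1 := congrArg (rankHom R G) he
  rw [map_mul, map_sub, rankHom_cl, rankHom_cl] at h1
  rcases IsIdempotentElem.iff_eq_zero_or_one.1 h1 with h | h
  · left
    exact eq_zero_of_idem_finiteType (by omega) he
  · right
    have h2 := eq_zero_of_idem_finiteType (M := (FRep.triv R G).sum N) (N := M)
      (by rw [Module.finrank_prod, Module.finrank_self]; omega)
      (by rw [cl_sum, cl_one]; linear_combination he)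
    rw [cl_sum, cl_one] at h2
    linear_combination (-1 : RepRing R G) * h2

section descent

variable {ι κ : Type} [Fintype ι] [DecidableEq ι] [Fintype κ] [DecidableEq κ]

/-- Lift a matrix representation to a subalgebra containing its entries. -/
def matLift [Monoid G] (S : Subalgebra ℤ R) (μ : G →* Matrix ι ι R) (h : ∀ g i j, μ g i j ∈ S) :
    G →* Matrix ι ι S where
  toFun g := Matrix.of fun i j => ⟨μ g i j, h g i j⟩
  map_one' := by
    ext i j
    simp only [map_one, Matrix.of_apply, Matrix.one_apply]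
    split_ifs <;> rfl
  map_mul' g g' := by
    ext i j
    simp [Matrix.mul_apply]

theorem matMap_matLift [Monoid G] (S : Subalgebra ℤ R) (μ : G →* Matrix ι ι R)
    (h : ∀ g i j, μ g i j ∈ S) : matMap S.val.toRingHom (matLift S μ h) = μ := by
  ext g i j
  rfl

theorem exists_fg_range [Monoid G] [Finite G] (x : RepRing R G) :
    ∃ S : Subalgebra ℤ R, S.FG ∧ ∃ y : RepRing S G, bcMap S.val.toRingHom y = x := by
  obtain ⟨r, s, μ, ν, rfl⟩ := exists_sub_ofMat x
  let t : Set R := Set.range (fun x : G × Fin r × Fin r => μ x.1 x.2.1 x.2.2) ∪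
    Set.range (fun x : G × Fin s × Fin s => ν x.1 x.2.1 x.2.2)
  have ht : t.Finite := (Set.finite_range _).union (Set.finite_range _)
  refine ⟨Algebra.adjoin ℤ t, Subalgebra.fg_def.2 ⟨t, ht, rfl⟩,
    cl (ofMat (matLift _ μ fun g i j => Algebra.subset_adjoin (Or.inl ⟨(g, i, j), rfl⟩))) -
    cl (ofMat (matLift _ ν fun g i j => Algebra.subset_adjoin (Or.inr ⟨(g, i, j), rfl⟩))), ?_⟩
  rw [map_sub, bcMap_ofMat, bcMap_ofMat, matMap_matLift, matMap_matLift]

theorem exists_fg_ker [Monoid G] [Finite G] (S : Subalgebra ℤ R) (hS : S.FG) (y : RepRing S G)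
    (hy : bcMap S.val.toRingHom y = 0) :
    ∃ S' : Subalgebra ℤ R, S'.FG ∧ ∃ h : S ≤ S',
      bcMap (Subalgebra.inclusion h).toRingHom y = 0 := by
  obtain ⟨r, s, α, β, rfl⟩ := exists_sub_ofMat y
  rw [map_sub, bcMap_ofMat, bcMap_ofMat, sub_eq_zero] at hy
  obtain ⟨X, hX⟩ := exists_iso_of_cl_eq hy
  obtain ⟨m, ξ, hξ⟩ := exists_ofMat X
  have h1 : (ofMat (matSum (matMap S.val.toRingHom α) ξ)).Iso
      (ofMat (matSum (matMap S.val.toRingHom β) ξ)) :=
    ((ofMat_sum_iso _ _).symm.trans (((FRep.Iso.refl _).sum hξ.symm).trans hX)).trans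
      (((FRep.Iso.refl _).sum hξ).trans (ofMat_sum_iso _ _))
  obtain ⟨P, Q, hPQ, hQP, hP⟩ := (ofMat_iso_iff _ _).1 h1
  let t : Set R := Set.range (fun x : G × Fin m × Fin m => ξ x.1 x.2.1 x.2.2) ∪
    (Set.range (fun x : _ × _ => P x.1 x.2) ∪ Set.range (fun x : _ × _ => Q x.1 x.2))
  have ht : t.Finite :=
    (Set.finite_range _).union ((Set.finite_range _).union (Set.finite_range _))
  let S' := S ⊔ Algebra.adjoin ℤ t
  have hle : t ⊆ S' := Algebra.subset_adjoin.trans (le_sup_right (a := S))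
  refine ⟨S', hS.sup (Subalgebra.fg_def.2 ⟨t, ht, rfl⟩), le_sup_left, ?_⟩
  rw [map_sub, bcMap_ofMat, bcMap_ofMat, sub_eq_zero]
  let ξ' := matLift S' ξ fun g i j => hle (Or.inl ⟨(g, i, j), rfl⟩)
  let P' : Matrix (Fin s ⊕ Fin m) (Fin r ⊕ Fin m) S' :=
    Matrix.of fun i j => ⟨P i j, hle (Or.inr (Or.inl ⟨(i, j), rfl⟩))⟩
  let Q' : Matrix (Fin r ⊕ Fin m) (Fin s ⊕ Fin m) S' :=
    Matrix.of fun i j => ⟨Q i j, hle (Or.inr (Or.inr ⟨(i, j), rfl⟩))⟩
  have hP' : P'.map S'.val.toRingHom = P := rfl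
  have hQ' : Q'.map S'.val.toRingHom = Q := rfl
  have hinj : Function.Injective S'.val.toRingHom := Subtype.val_injective
  have hsum : ∀ {l : ℕ} (γ : G →* Matrix (Fin l) (Fin l) S) (g : G),
      (matSum (matMap (Subalgebra.inclusion (le_sup_left : S ≤ S')).toRingHom γ) ξ' g).map
        S'.val.toRingHom = matSum (matMap S.val.toRingHom γ) ξ g := by
    intro l γ g
    ext (i | i) (j | j) <;> rfl
  have h2 : (ofMat (matSum (matMap (Subalgebra.inclusion (le_sup_left : S ≤ S')).toRingHom α)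
      ξ')).Iso (ofMat (matSum (matMap (Subalgebra.inclusion
        (le_sup_left : S ≤ S')).toRingHom β) ξ')) := by
    refine (ofMat_iso_iff _ _).2 ⟨P', Q', ?_, ?_, fun g => ?_⟩
    · apply Matrix.map_injective hinj
      simp only
      rw [Matrix.map_mul, hP', hQ', hPQ, Matrix.map_one _ (map_zero _) (map_one _)]
    · apply Matrix.map_injective hinj
      simp only
      rw [Matrix.map_mul, hP', hQ', hQP, Matrix.map_one _ (map_zero _) (map_one _)]
    · apply Matrix.map_injective hinj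
      simp only
      rw [Matrix.map_mul, Matrix.map_mul, hP', hsum, hsum, hP]
  have h3 := cl_congr (((ofMat_sum_iso _ _).trans h2).trans (ofMat_sum_iso _ _).symm)
  rw [cl_sum, cl_sum] at h3
  exact add_right_cancel h3

end descent

theorem idem_eq_zero_or_one [Group G] [Finite G] (e : RepRing R G) (he : e * e = e) :
    e = 0 ∨ e = 1 := by
  obtain ⟨S, hS, y, rfl⟩ := exists_fg_range e
  obtain ⟨S', hS', h, hy⟩ := exists_fg_ker S hS (y * y - y) (by rw [map_sub, map_mul, he, sub_self])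
  haveI : Algebra.FiniteType ℤ S' := (Subalgebra.fg_iff_finiteType S').1 hS'
  rw [map_sub, map_mul, sub_eq_zero] at hy
  have h1 : bcMap S.val.toRingHom y =
      bcMap S'.val.toRingHom (bcMap (Subalgebra.inclusion h).toRingHom y) := by
    rw [bcMap_comp]
    rfl
  rcases idem_finiteType _ hy with h2 | h2
  · left; rw [h1, h2, map_zero]
  · right; rw [h1, h2, map_one]

end Pool.Agent.Lib.MP_6995cd_al
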